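import Mathlib

set_option autoImplicit false

namespace Pool.Agent.H1.EK

/-- The integer part of `α n ^ 2 + β n + γ` (as a natural number: the polynomial is positive for
admissible triples). -/
noncomputable def floorPoly (α β γ : ℝ) (n : ℕ) : ℕ := ⌊α * (n : ℝ) ^ 2 + β * (n : ℝ) + γ⌋₊

/-- The normalised value `(ω(⌊α n ^ 2 + β n + γ⌋) - log log N) / √(log log N)`, where `ω` counts
distinct prime divisors. -/
noncomputable def X (α β γ : ℝ) (N n : ℕ) : ℝ :=
  (((floorPoly α β γ n).primeFactors.card : ℝ) - Real.log (Real.log N)) /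
    Real.sqrt (Real.log (Real.log N))

/-- The distribution function of `X_N`: the proportion of `n` in `{1, ..., N}` with
`X_N(n) ≤ x`. -/
noncomputable def distr (α β γ : ℝ) (N : ℕ) (x : ℝ) : ℝ :=
  (((Finset.Icc 1 N).filter (fun n => X α β γ N n ≤ x)).card : ℝ) / N

/-- The Kolmogorov distance between `X_N` and a standard normal variable. -/
noncomputable def dK (α β γ : ℝ) (N : ℕ) : ℝ :=
  ⨆ x : ℝ, |distr α β γ N x - ProbabilityTheory.cdf (ProbabilityTheory.gaussianReal 0 1) x|

/-- Admissible triples: `α > 0`, negative discriminant, and `α`, `β` not both rational. -/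
def Admissible (α β γ : ℝ) : Prop :=
  0 < α ∧ β ^ 2 < 4 * α * γ ∧
    ¬ (α ∈ Set.range ((↑) : ℚ → ℝ) ∧ β ∈ Set.range ((↑) : ℚ → ℝ))

end Pool.Agent.H1.EK
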