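import Mathlib

set_option autoImplicit false

namespace Pool.Agent.H1

open Finset

/-- the completely multiplicative function `n ↦ 1/n` -/
noncomputable def invHom : ℕ →* ℝ where
  toFun n := (n : ℝ)⁻¹
  map_one' := by simp
  map_mul' a b := by push_cast; rw [mul_inv]

lemma log_le_prod (N : ℕ) (hN : 1 ≤ N) :
    Real.log N ≤ ∏ p ∈ N.primesBelow, (1 - (p : ℝ)⁻¹)⁻¹ := by
  have h := (EulerProduct.summable_and_hasSum_smoothNumbers_prod_primesBelow_geometric
    (f := invHom) (by
      intro p hp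
      simp only [invHom, MonoidHom.coe_mk, OneHom.coe_mk, norm_inv, Real.norm_natCast]
      exact inv_lt_one_of_one_lt₀ (by exact_mod_cast hp.one_lt)) N).2
  have h1 : ∑ m ∈ (Finset.range N).subtype (· ∈ N.smoothNumbers), invHom (m : ℕ)
      ≤ ∏ p ∈ N.primesBelow, (1 - invHom p)⁻¹ := by
    refine sum_le_hasSum _ (fun i _ => ?_) h
    simp only [invHom, MonoidHom.coe_mk, OneHom.coe_mk]
    positivity
  refine le_trans ?_ h1
  have h2 : ∑ m ∈ (Finset.range N).subtype (· ∈ N.smoothNumbers), invHom (m : ℕ)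
      = ∑ m ∈ (Finset.range N).filter (· ∈ N.smoothNumbers), invHom m := by
    rw [← Finset.subtype_map, Finset.sum_map]
    rfl
  rw [h2]
  obtain ⟨n, rfl⟩ : ∃ n, N = n + 1 := ⟨N - 1, by omega⟩
  have h3 := log_add_one_le_harmonic n
  refine h3.trans ?_
  rw [harmonic_eq_sum_Icc]
  push_cast
  apply Finset.sum_le_sum_of_subset_of_nonneg
  · intro m hm
    rw [Finset.mem_Icc] at hm
    rw [Finset.mem_filter, Finset.mem_range]
    refine ⟨by omega, ?_⟩
    rw [Nat.mem_smoothNumbers']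
    intro p hp hpm
    have := Nat.le_of_dvd (by omega) hpm
    omega
  · intro m _ _
    show (0 : ℝ) ≤ (m : ℝ)⁻¹
    positivity

lemma sum_telescope (N : ℕ) : ∑ n ∈ Finset.range N, (if 2 ≤ n then (1 : ℝ) / (n * (n - 1)) else 0) ≤ 1 := by
  have key : ∀ N : ℕ, ∑ n ∈ Finset.range (N + 2), (if 2 ≤ n then (1 : ℝ) / (n * (n - 1)) else 0)
      = 1 - 1 / ((N : ℝ) + 1) := by
    intro N
    induction N with
    | zero => simp [Finset.sum_range_succ]
    | succ N ih =>
      rw [Finset.sum_range_succ, ih]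
      rw [if_pos (by omega)]
      push_cast
      have h1 : (N : ℝ) + 1 ≠ 0 := by positivity
      have h2 : (N : ℝ) + 2 ≠ 0 := by positivity
      have h3 : (N : ℝ) + 2 - 1 = N + 1 := by ring
      have h4 : (N : ℝ) + 1 + 1 = N + 2 := by ring
      rw [h3, h4]
      field_simp
      ring
  by_cases h : 2 ≤ N
  · obtain ⟨n, rfl⟩ : ∃ n, N = n + 2 := ⟨N - 2, by omega⟩
    rw [key]
    have : 0 ≤ 1 / ((n : ℝ) + 1) := by positivity
    linarith
  · have : ∑ n ∈ Finset.range N, (if 2 ≤ n then (1 : ℝ) / (n * (n - 1)) else 0) = 0 := by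
      apply Finset.sum_eq_zero
      intro n hn
      rw [Finset.mem_range] at hn
      rw [if_neg (by omega)]
    rw [this]; norm_num

/-- Lower bound in Mertens' second theorem. -/
theorem mertens_lower (N : ℕ) (hN : 3 ≤ N) :
    Real.log (Real.log N) - 1 ≤ ∑ p ∈ N.primesBelow, (1 : ℝ) / p := by
  have h1 := log_le_prod N (by omega)
  have hlog : 0 < Real.log N := Real.log_pos (by exact_mod_cast (by omega : 1 < N))
  have h2 := Real.log_le_log hlog h1
  rw [Real.log_prod (by
    intro p hp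
    have hp' := Nat.prime_of_mem_primesBelow hp
    have : (p : ℝ)⁻¹ < 1 := inv_lt_one_of_one_lt₀ (by exact_mod_cast hp'.one_lt)
    have h3 : (0:ℝ) < 1 - (p : ℝ)⁻¹ := by linarith
    positivity)] at h2
  have h3 : ∀ p ∈ N.primesBelow, Real.log ((1 - (p : ℝ)⁻¹)⁻¹)
      ≤ (1 : ℝ) / p + (1 : ℝ) / (p * (p - 1)) := by
    intro p hp
    have hp' := Nat.prime_of_mem_primesBelow hp
    have hp2 : (2 : ℝ) ≤ p := by exact_mod_cast hp'.two_le
    have hpos : (0:ℝ) < 1 - (p : ℝ)⁻¹ := by
      have : (p : ℝ)⁻¹ < 1 := inv_lt_one_of_one_lt₀ (by linarith)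
      linarith
    have h4 := Real.log_le_sub_one_of_pos (inv_pos.mpr hpos)
    refine h4.trans (le_of_eq ?_)
    have hp1 : (p : ℝ) - 1 ≠ 0 := by linarith
    have hp0 : (p : ℝ) ≠ 0 := by linarith
    have : (1 : ℝ) - (p : ℝ)⁻¹ = (p - 1) / p := by field_simp
    rw [this]
    field_simp
    ring
  have h4 := Finset.sum_le_sum h3
  rw [Finset.sum_add_distrib] at h4
  have h5 : ∑ p ∈ N.primesBelow, (1 : ℝ) / (p * (p - 1)) ≤ 1 := by
    refine le_trans ?_ (sum_telescope N)
    have : ∑ p ∈ N.primesBelow, (1 : ℝ) / (p * (p - 1))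
        = ∑ p ∈ N.primesBelow, (if 2 ≤ p then (1 : ℝ) / (p * (p - 1)) else 0) := by
      apply Finset.sum_congr rfl
      intro p hp
      rw [if_pos (Nat.prime_of_mem_primesBelow hp).two_le]
    rw [this]
    apply Finset.sum_le_sum_of_subset_of_nonneg
    · intro p hp
      rw [Finset.mem_range]
      exact Nat.lt_of_mem_primesBelow hp
    · intro n _ _
      split_ifs with h
      · have : (2:ℝ) ≤ n := by exact_mod_cast h
        have h6 : (0:ℝ) < (n:ℝ) - 1 := by linarith
        positivity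
      · exact le_refl _
  linarith

end Pool.Agent.H1
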