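import Mathlib
import Pool.Agent.H1.Mertens

set_option autoImplicit false

namespace Pool.Agent.H1

open Finset

/-- number of elements `p` of `S` for which `m` is congruent to `v` modulo `p` -/
def wS (S : Finset ℕ) (v m : ℕ) : ℕ := (S.filter (fun p => m ≡ v [MOD p])).card

lemma count_modEq (M r v : ℕ) (hr : 0 < r) :
    |(((Finset.Ioc 0 M).filter (fun m => m ≡ v [MOD r])).card : ℝ) - M / r| ≤ 1 := by
  have h := Nat.Ioc_filter_modEq_card 0 M hr v
  have hr' : (0 : ℚ) < r := by exact_mod_cast hr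
  set x : ℚ := ((M : ℚ) - v) / r with hx
  set y : ℚ := (((0 : ℕ) : ℚ) - v) / r with hy
  have hxy : x - y = M / r := by rw [hx, hy]; field_simp; push_cast; ring
  have h1 := Int.floor_le x
  have h2 := Int.lt_floor_add_one x
  have h3 := Int.floor_le y
  have h4 := Int.lt_floor_add_one y
  have hnn : 0 ≤ ⌊x⌋ - ⌊y⌋ := by
    have : y ≤ x := by
      have : (0 : ℚ) ≤ M / r := by positivity
      linarith
    have := Int.floor_le_floor this
    linarith
  rw [max_eq_left hnn] at h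
  have h5 : ((((Finset.Ioc 0 M).filter (fun m => m ≡ v [MOD r])).card : ℤ) : ℚ) = ⌊x⌋ - ⌊y⌋ := by
    rw [h]; push_cast; rfl
  have h6 : |((((Finset.Ioc 0 M).filter (fun m => m ≡ v [MOD r])).card : ℤ) : ℚ) - M / r| ≤ 1 := by
    rw [h5, ← hxy, abs_le]
    constructor <;> linarith
  have h7 : ((|((((Finset.Ioc 0 M).filter (fun m => m ≡ v [MOD r])).card : ℤ) : ℚ) - M / r| : ℚ) : ℝ) ≤ ((1 : ℚ) : ℝ) := by
    exact_mod_cast h6
  push_cast at h7
  exact h7

lemma turan (M v : ℕ) (S : Finset ℕ) (hS : ∀ p ∈ S, p.Prime) :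
    ∑ m ∈ Finset.Ioc 0 M, ((wS S v m : ℝ) - ∑ p ∈ S, (1 : ℝ) / p) ^ 2
      ≤ M * (∑ p ∈ S, (1 : ℝ) / p) + 3 * (S.card : ℝ) ^ 2 := by
  classical
  set L : ℝ := ∑ p ∈ S, (1 : ℝ) / p with hL
  let ind : ℕ → ℕ → ℝ := fun m p => if m ≡ v [MOD p] then 1 else 0
  have hw : ∀ m, (wS S v m : ℝ) = ∑ p ∈ S, ind m p := by
    intro m
    simp only [wS, ind, Finset.card_filter]
    push_cast
    rfl
  have hcount : ∀ p, 0 < p → |∑ m ∈ Finset.Ioc 0 M, ind m p - M / p| ≤ 1 := by
    intro p hp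
    have := count_modEq M p v hp
    rw [Finset.card_filter] at this
    push_cast at this
    exact this
  have hL0 : 0 ≤ L := Finset.sum_nonneg (fun p _ => by positivity)
  have hLS : L ≤ S.card := by
    rw [hL, Finset.card_eq_sum_ones]
    push_cast
    apply Finset.sum_le_sum
    intro p hp
    have : (1:ℝ) ≤ p := by exact_mod_cast (hS p hp).one_lt.le
    rw [div_le_one (by linarith)]
    exact this
  have h1 : M * L - S.card ≤ ∑ m ∈ Finset.Ioc 0 M, (wS S v m : ℝ) := by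
    have e : ∑ m ∈ Finset.Ioc 0 M, (wS S v m : ℝ) = ∑ p ∈ S, ∑ m ∈ Finset.Ioc 0 M, ind m p := by
      rw [Finset.sum_comm]
      exact Finset.sum_congr rfl (fun m _ => hw m)
    rw [e, hL, Finset.mul_sum, Finset.card_eq_sum_ones]
    push_cast
    rw [← Finset.sum_sub_distrib]
    apply Finset.sum_le_sum
    intro p hp
    have := (abs_le.mp (hcount p (hS p hp).pos)).1
    have e2 : (M : ℝ) * (1 / p) = M / p := by ring
    rw [e2]
    linarith
  have h2 : ∑ m ∈ Finset.Ioc 0 M, (wS S v m : ℝ) ^ 2 ≤ M * L ^ 2 + (S.card : ℝ) ^ 2 + M * L := by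
    have e : ∑ m ∈ Finset.Ioc 0 M, (wS S v m : ℝ) ^ 2
        = ∑ p ∈ S, ∑ p' ∈ S, ∑ m ∈ Finset.Ioc 0 M, ind m p * ind m p' := by
      have e1 : ∀ m, (wS S v m : ℝ) ^ 2 = ∑ p ∈ S, ∑ p' ∈ S, ind m p * ind m p' := by
        intro m
        rw [hw, sq, Finset.sum_mul_sum]
      rw [Finset.sum_congr rfl (fun m _ => e1 m), Finset.sum_comm]
      apply Finset.sum_congr rfl
      intro p _
      rw [Finset.sum_comm]
    rw [e]
    have hb : ∀ p ∈ S, ∀ p' ∈ S, ∑ m ∈ Finset.Ioc 0 M, ind m p * ind m p'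
        ≤ M * (1 / p) * (1 / p') + 1 + (if p = p' then M * ((1 : ℝ) / p) else 0) := by
      intro p hp p' hp'
      by_cases hpp : p = p'
      · subst hpp
        rw [if_pos rfl]
        have e1 : ∀ m, ind m p * ind m p = ind m p := by
          intro m; simp only [ind]; split_ifs <;> simp
        rw [Finset.sum_congr rfl (fun m _ => e1 m)]
        have := (abs_le.mp (hcount p (hS p hp).pos)).2
        have e2 : (M : ℝ) * (1 / p) = M / p := by ring
        rw [e2]
        have h0 : (0 : ℝ) ≤ M / p * (1 / p) := by positivity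
        linarith
      · rw [if_neg hpp, add_zero]
        have hcop : Nat.Coprime p p' := (Nat.coprime_primes (hS p hp) (hS p' hp')).mpr hpp
        have e1 : ∀ m, ind m p * ind m p' = ind m (p * p') := by
          intro m
          simp only [ind]
          have hiff := Nat.modEq_and_modEq_iff_modEq_mul hcop (a := m) (b := v)
          by_cases h1 : m ≡ v [MOD p] <;> by_cases h2 : m ≡ v [MOD p'] <;>
            simp [h1, h2, ← hiff]
        rw [Finset.sum_congr rfl (fun m _ => e1 m)]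
        have := (abs_le.mp (hcount (p * p') (Nat.mul_pos (hS p hp).pos (hS p' hp').pos))).2
        have hp0 : (p : ℝ) ≠ 0 := by exact_mod_cast (hS p hp).ne_zero
        have hp0' : (p' : ℝ) ≠ 0 := by exact_mod_cast (hS p' hp').ne_zero
        have e2 : (M : ℝ) * (1 / p) * (1 / p') = M / ((p * p' : ℕ) : ℝ) := by
          push_cast; field_simp
        rw [e2]
        linarith
    refine (Finset.sum_le_sum (fun p hp => Finset.sum_le_sum (fun p' hp' => hb p hp p' hp'))).trans ?_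
    have e3 : ∑ p ∈ S, ∑ p' ∈ S, ((M : ℝ) * (1 / p) * (1 / p') + 1 + (if p = p' then M * ((1 : ℝ) / p) else 0))
        = M * L ^ 2 + (S.card : ℝ) ^ 2 + M * L := by
      simp only [Finset.sum_add_distrib]
      congr 1
      · congr 1
        · rw [sq, hL, Finset.sum_mul_sum, Finset.mul_sum]
          apply Finset.sum_congr rfl
          intro p _
          rw [Finset.mul_sum]
          apply Finset.sum_congr rfl
          intro p' _
          ring
        · simp [sq]
      · rw [hL, Finset.mul_sum]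
        apply Finset.sum_congr rfl
        intro p hp
        rw [Finset.sum_ite_eq]
        simp [hp]
    rw [e3]
  have h3 : ∑ m ∈ Finset.Ioc 0 M, ((wS S v m : ℝ) - L) ^ 2
      = ∑ m ∈ Finset.Ioc 0 M, (wS S v m : ℝ) ^ 2 - 2 * L * ∑ m ∈ Finset.Ioc 0 M, (wS S v m : ℝ)
        + M * L ^ 2 := by
    have e1 : ∀ m, ((wS S v m : ℝ) - L) ^ 2 = (wS S v m : ℝ) ^ 2 - 2 * L * (wS S v m : ℝ) + L ^ 2 := by
      intro m; ring
    rw [Finset.sum_congr rfl (fun m _ => e1 m), Finset.sum_add_distrib, Finset.sum_sub_distrib,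
      ← Finset.mul_sum, Finset.sum_const, Nat.card_Ioc, nsmul_eq_mul]
    simp
  rw [h3]
  have h4 : 2 * L * (M * L - S.card) ≤ 2 * L * ∑ m ∈ Finset.Ioc 0 M, (wS S v m : ℝ) :=
    mul_le_mul_of_nonneg_left h1 (by positivity)
  have h5 : L * S.card ≤ (S.card : ℝ) ^ 2 := by
    rw [sq]; exact mul_le_mul_of_nonneg_right hLS (by positivity)
  nlinarith

/-- few `m` have small `wS` -/
lemma cheb (M v : ℕ) (S : Finset ℕ) (hS : ∀ p ∈ S, p.Prime) (hcard : S.card ^ 2 ≤ M)
    (hL : 640 ≤ ∑ p ∈ S, (1 : ℝ) / p) :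
    (((Finset.Ioc 0 M).filter (fun m => (wS S v m : ℝ) < 7 / 8 * ∑ p ∈ S, (1 : ℝ) / p)).card : ℝ)
      ≤ M / 8 := by
  set L : ℝ := ∑ p ∈ S, (1 : ℝ) / p with hLdef
  have h1 := turan M v S hS
  rw [← hLdef] at h1
  set F := (Finset.Ioc 0 M).filter (fun m => (wS S v m : ℝ) < 7 / 8 * L) with hF
  have h2 : ∑ m ∈ F, (L / 8) ^ 2 ≤ ∑ m ∈ Finset.Ioc 0 M, ((wS S v m : ℝ) - L) ^ 2 := by
    have h3 : ∑ m ∈ F, (L / 8) ^ 2 ≤ ∑ m ∈ F, ((wS S v m : ℝ) - L) ^ 2 := by
      apply Finset.sum_le_sum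
      intro m hm
      rw [hF, Finset.mem_filter] at hm
      nlinarith [hm.2]
    refine h3.trans (Finset.sum_le_sum_of_subset_of_nonneg (Finset.filter_subset _ _) ?_)
    intro m _ _
    positivity
  rw [Finset.sum_const, nsmul_eq_mul] at h2
  have h3 : (S.card : ℝ) ^ 2 ≤ M := by exact_mod_cast hcard
  have h4 : (F.card : ℝ) * (L / 8) ^ 2 ≤ M * L + 3 * M := by linarith
  have hM : (0:ℝ) ≤ M := by positivity
  have h5 : (M : ℝ) * L + 3 * M ≤ M / 8 * (L / 8) ^ 2 := by
    have : (0:ℝ) ≤ M * (L ^ 2 / 512 - L - 3) := by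
      apply mul_nonneg hM
      nlinarith
    nlinarith
  have h6 : (F.card : ℝ) * (L / 8) ^ 2 ≤ M / 8 * (L / 8) ^ 2 := h4.trans h5
  have h7 : (0:ℝ) < (L / 8) ^ 2 := by positivity
  exact le_of_mul_le_mul_right h6 h7

end Pool.Agent.H1
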