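import Mathlib
import Pool.Agent.H1.Turan
import Pool.Agent.H1.EKDefs

set_option autoImplicit false

namespace Pool.Agent.H1.EK

open Finset

lemma dK_ge (α β γ : ℝ) (N : ℕ) (x : ℝ) :
    |distr α β γ N x - ProbabilityTheory.cdf (ProbabilityTheory.gaussianReal 0 1) x|
      ≤ dK α β γ N := by
  unfold dK
  refine le_ciSup (f := fun x => |distr α β γ N x -
    ProbabilityTheory.cdf (ProbabilityTheory.gaussianReal 0 1) x|) ⟨1, ?_⟩ x
  rintro _ ⟨y, rfl⟩
  have h1 : 0 ≤ distr α β γ N y := by unfold distr; positivity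
  have h2 : distr α β γ N y ≤ 1 := by
    unfold distr
    apply div_le_one_of_le₀ _ (by positivity)
    have : ((Finset.Icc 1 N).filter (fun n => X α β γ N n ≤ y)).card ≤ N := by
      refine (Finset.card_filter_le _ _).trans ?_
      simp
    exact_mod_cast this
  have h3 := ProbabilityTheory.cdf_nonneg (ProbabilityTheory.gaussianReal 0 1) y
  have h4 := ProbabilityTheory.cdf_le_one (ProbabilityTheory.gaussianReal 0 1) y
  simp only [abs_le]
  constructor <;> linarith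

lemma exists_common_inv (a : ℕ) (S : Finset ℕ) (hS : ∀ p ∈ S, p.Prime ∧ ¬ p ∣ a) :
    ∃ v : ℕ, ∀ p ∈ S, a * v ≡ 1 [MOD p] := by
  have hcop : Nat.Coprime a (∏ p ∈ S, p) := by
    apply Nat.Coprime.prod_right
    intro p hp
    exact ((Nat.Prime.coprime_iff_not_dvd (hS p hp).1).mpr (hS p hp).2).symm
  have hpos : 0 < ∏ p ∈ S, p := Finset.prod_pos (fun p hp => (hS p hp).1.pos)
  obtain ⟨v, hv⟩ : ∃ v : ℕ, a * v ≡ 1 [MOD (∏ p ∈ S, p)] := by
    by_cases h1 : ∏ p ∈ S, p = 1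
    · rw [h1]; exact ⟨0, Nat.modEq_one⟩
    · obtain ⟨v, -, hv⟩ := Nat.exists_mul_mod_eq_one_of_coprime hcop (by omega)
      refine ⟨v, ?_⟩
      unfold Nat.ModEq
      rw [hv]
      exact (Nat.mod_eq_of_lt (by omega)).symm
  exact ⟨v, fun p hp => hv.of_dvd (Finset.dvd_prod_of_mem _ hp)⟩

/-- the set of primes used in the second moment argument -/
def SS (a M : ℕ) : Finset ℕ := ((Nat.sqrt M).primesBelow).filter (fun p => ¬ p ∣ a)

lemma SS_spec {a M p : ℕ} (hp : p ∈ SS a M) : p.Prime ∧ ¬ p ∣ a := by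
  unfold SS at hp
  rw [Finset.mem_filter] at hp
  exact ⟨Nat.prime_of_mem_primesBelow hp.1, hp.2⟩

lemma SS_card (a M : ℕ) : (SS a M).card ^ 2 ≤ M := by
  have h1 : (SS a M).card ≤ Nat.sqrt M := by
    unfold SS
    refine (Finset.card_filter_le _ _).trans ?_
    unfold Nat.primesBelow
    refine (Finset.card_filter_le _ _).trans ?_
    simp
  calc (SS a M).card ^ 2 ≤ (Nat.sqrt M) ^ 2 := Nat.pow_le_pow_left h1 2
    _ ≤ M := Nat.sqrt_le' M

lemma SS_sum (a M : ℕ) (ha : 0 < a) (hM : 3 ≤ Nat.sqrt M) :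
    Real.log (Real.log (Nat.sqrt M)) - 1 - a ≤ ∑ p ∈ SS a M, (1 : ℝ) / p := by
  have h1 := mertens_lower (Nat.sqrt M) hM
  have h2 : ∑ p ∈ (Nat.sqrt M).primesBelow, (1 : ℝ) / p
      = ∑ p ∈ SS a M, (1 : ℝ) / p
        + ∑ p ∈ ((Nat.sqrt M).primesBelow).filter (fun p => ¬ ¬ p ∣ a), (1 : ℝ) / p := by
    unfold SS
    exact (Finset.sum_filter_add_sum_filter_not _ _ _).symm
  have h3 : ∑ p ∈ ((Nat.sqrt M).primesBelow).filter (fun p => ¬ ¬ p ∣ a), (1 : ℝ) / p ≤ a := by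
    have h4 : ∑ p ∈ ((Nat.sqrt M).primesBelow).filter (fun p => ¬ ¬ p ∣ a), (1 : ℝ) / p
        ≤ ∑ p ∈ ((Nat.sqrt M).primesBelow).filter (fun p => ¬ ¬ p ∣ a), (1 : ℝ) := by
      apply Finset.sum_le_sum
      intro p hp
      rw [Finset.mem_filter] at hp
      have := (Nat.prime_of_mem_primesBelow hp.1).one_lt
      rw [div_le_one (by exact_mod_cast (by omega : 0 < p))]
      exact_mod_cast this.le
    refine h4.trans ?_
    rw [Finset.sum_const, nsmul_eq_mul, mul_one]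
    have h5 : ((Nat.sqrt M).primesBelow).filter (fun p => ¬ ¬ p ∣ a) ⊆ Nat.divisors a := by
      intro p hp
      rw [Finset.mem_filter, not_not] at hp
      rw [Nat.mem_divisors]
      exact ⟨hp.2, by omega⟩
    have h6 := Finset.card_le_card h5
    have h7 := Nat.card_divisors_le_self a
    exact_mod_cast h6.trans h7
  linarith

lemma floor_eq (a q : ℕ) (ha : 0 < a) (hq : 0 < q) (γ : ℝ) (hγ0 : 0 < γ) (N : ℕ) (α : ℝ)
    (hα : (a : ℝ) / q ≤ α) (hα2 : (α - a / q) * (N : ℝ) ^ 2 < 1 - γ) (m : ℕ) (hm : 1 ≤ m)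
    (hmN : q * m ≤ N) :
    floorPoly α (-1) γ (q * m) = q * m * (a * m - 1) := by
  unfold floorPoly
  have ham : 1 ≤ a * m := Nat.mul_pos ha hm
  rw [Nat.floor_eq_iff]
  · push_cast [Nat.cast_sub ham]
    have hqR : (q : ℝ) ≠ 0 := by exact_mod_cast hq.ne'
    have e : α * ((q : ℝ) * m) ^ 2 + -1 * (q * m) + γ
        = q * m * (a * m - 1) + (γ + (α - a / q) * (q * m) ^ 2) := by
      field_simp; ring
    rw [e]
    have h1 : 0 ≤ α - a / q := by linarith
    have h2 : ((q : ℝ) * m) ^ 2 ≤ (N : ℝ) ^ 2 := by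
      have : ((q * m : ℕ) : ℝ) ≤ N := by exact_mod_cast hmN
      push_cast at this
      exact pow_le_pow_left₀ (by positivity) this 2
    have h3 : (α - a / q) * ((q : ℝ) * m) ^ 2 ≤ (α - a / q) * (N : ℝ) ^ 2 :=
      mul_le_mul_of_nonneg_left h2 h1
    have h4 : 0 ≤ (α - a / q) * ((q : ℝ) * m) ^ 2 := mul_nonneg h1 (by positivity)
    constructor <;> linarith
  · have hqR : (q : ℝ) ≠ 0 := by exact_mod_cast hq.ne'
    push_cast
    have e : α * ((q : ℝ) * m) ^ 2 + -1 * (q * m) + γ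
        = q * m * (a * m - 1) + (γ + (α - a / q) * (q * m) ^ 2) := by
      field_simp; ring
    rw [e]
    have h1 : 0 ≤ α - a / q := by linarith
    have h4 : 0 ≤ (α - a / q) * ((q : ℝ) * m) ^ 2 := mul_nonneg h1 (by positivity)
    have h5 : (1 : ℝ) ≤ a * m := by exact_mod_cast ham
    have h6 : (0 : ℝ) ≤ q * m * (a * m - 1) := by
      apply mul_nonneg (by positivity); linarith
    linarith

lemma omega_ge (a q : ℕ) (hq : 0 < q) (S : Finset ℕ)
    (hS : ∀ p ∈ S, p.Prime ∧ ¬ p ∣ a) (v : ℕ) (hv : ∀ p ∈ S, a * v ≡ 1 [MOD p]) (m : ℕ)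
    (hm : 1 ≤ m) (ham : 2 ≤ a * m) :
    wS S 0 m + wS S v m ≤ (q * m * (a * m - 1)).primeFactors.card := by
  unfold wS
  have hdisj : Disjoint (S.filter (fun p => m ≡ 0 [MOD p])) (S.filter (fun p => m ≡ v [MOD p])) := by
    rw [Finset.disjoint_left]
    intro p h1 h2
    rw [Finset.mem_filter] at h1 h2
    have h3 : (1 : ℕ) ≡ 0 [MOD p] := by
      calc (1 : ℕ) ≡ a * v [MOD p] := (hv p h1.1).symm
        _ ≡ a * m [MOD p] := Nat.ModEq.mul_left a h2.2.symm
        _ ≡ a * 0 [MOD p] := Nat.ModEq.mul_left a h1.2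
        _ = 0 := by simp
    have h4 := (Nat.modEq_zero_iff_dvd).mp h3
    exact (hS p h1.1).1.one_lt.ne' (Nat.dvd_one.mp h4)
  rw [← Finset.card_union_of_disjoint hdisj]
  apply Finset.card_le_card
  intro p hp
  rw [Finset.mem_union, Finset.mem_filter, Finset.mem_filter] at hp
  rw [Nat.mem_primeFactors]
  have hne : q * m * (a * m - 1) ≠ 0 := by
    apply Nat.mul_ne_zero
    · exact Nat.mul_ne_zero hq.ne' (by omega)
    · omega
  rcases hp with ⟨h1, h2⟩ | ⟨h1, h2⟩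
  · refine ⟨(hS p h1).1, ?_, hne⟩
    have h3 : p ∣ m := (Nat.modEq_zero_iff_dvd).mp h2
    exact (h3.mul_left q).mul_right _
  · refine ⟨(hS p h1).1, ?_, hne⟩
    have h3 : a * m ≡ 1 [MOD p] := (Nat.ModEq.mul_left a h2).trans (hv p h1)
    have h4 : p ∣ a * m - 1 := (Nat.modEq_iff_dvd' (by omega)).mp h3.symm
    exact h4.mul_left _

end Pool.Agent.H1.EK
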