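import Mathlib
import Pool.Agent.H1.EKKey

set_option autoImplicit false

namespace Pool.Agent.H1.EK

open Finset Filter Topology

/-- most `m ≤ M` are good -/
lemma good_card (a M v : ℕ) (hM : 4 ≤ M)
    (hL : 640 ≤ ∑ p ∈ SS a M, (1 : ℝ) / p) :
    (M : ℝ) / 2 ≤ (((Finset.Ioc 0 M).filter (fun m => 2 ≤ m ∧
      7 / 8 * ∑ p ∈ SS a M, (1 : ℝ) / p ≤ (wS (SS a M) 0 m : ℝ) ∧
      7 / 8 * ∑ p ∈ SS a M, (1 : ℝ) / p ≤ (wS (SS a M) v m : ℝ))).card : ℝ) := by
  classical
  set L : ℝ := ∑ p ∈ SS a M, (1 : ℝ) / p with hLdef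
  have c1 := cheb M 0 (SS a M) (fun p hp => (SS_spec hp).1) (SS_card a M) hL
  have c2 := cheb M v (SS a M) (fun p hp => (SS_spec hp).1) (SS_card a M) hL
  rw [← hLdef] at c1 c2
  set G := (Finset.Ioc 0 M).filter (fun m => 2 ≤ m ∧
      7 / 8 * L ≤ (wS (SS a M) 0 m : ℝ) ∧ 7 / 8 * L ≤ (wS (SS a M) v m : ℝ)) with hG
  set B1 := (Finset.Ioc 0 M).filter (fun m => (wS (SS a M) 0 m : ℝ) < 7 / 8 * L) with hB1
  set B2 := (Finset.Ioc 0 M).filter (fun m => (wS (SS a M) v m : ℝ) < 7 / 8 * L) with hB2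
  have hsub : Finset.Ioc 0 M ⊆ ((G ∪ B1) ∪ B2) ∪ {1} := by
    intro m hm
    simp only [Finset.mem_union, hG, hB1, hB2, Finset.mem_filter, Finset.mem_singleton]
    have hm' := hm
    rw [Finset.mem_Ioc] at hm'
    by_cases h1 : (wS (SS a M) 0 m : ℝ) < 7 / 8 * L
    · left; left; right; exact ⟨hm, h1⟩
    · by_cases h2 : (wS (SS a M) v m : ℝ) < 7 / 8 * L
      · left; right; exact ⟨hm, h2⟩
      · by_cases h3 : m = 1
        · right; exact h3
        · left; left; left
          push Not at h1 h2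
          exact ⟨hm, by omega, h1, h2⟩
  have hcard := Finset.card_le_card hsub
  have h1 : (((G ∪ B1) ∪ B2) ∪ {1}).card ≤ G.card + B1.card + B2.card + 1 := by
    refine (Finset.card_union_le _ _).trans ?_
    rw [Finset.card_singleton]
    refine Nat.add_le_add_right ?_ 1
    refine (Finset.card_union_le _ _).trans ?_
    exact Nat.add_le_add_right (Finset.card_union_le _ _) _
  rw [Nat.card_Ioc] at hcard
  have h2 : (M : ℝ) ≤ G.card + B1.card + B2.card + 1 := by
    have : M ≤ G.card + B1.card + B2.card + 1 := by omega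
    exact_mod_cast this
  have hM' : (4 : ℝ) ≤ M := by exact_mod_cast hM
  linarith

lemma key (a q : ℕ) (ha : 0 < a) (hq : 0 < q) (γ : ℝ) (hγ0 : 0 < γ) :
    ∃ c0 : ℝ, 0 < c0 ∧ ∃ N0 : ℕ, ∀ N : ℕ, N0 ≤ N → ∀ α : ℝ, (a : ℝ) / q ≤ α →
      (α - a / q) * (N : ℝ) ^ 2 < 1 - γ → c0 ≤ dK α (-1) γ N := by
  classical
  have hqR : (0 : ℝ) < q := by exact_mod_cast hq
  -- choice of the test point
  have hc8 : (0 : ℝ) < 1 / (8 * q) := by positivity
  obtain ⟨x1, hx1⟩ : ∃ x1 : ℝ, 1 - 1 / (8 * q)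
      ≤ ProbabilityTheory.cdf (ProbabilityTheory.gaussianReal 0 1) x1 := by
    have h := ProbabilityTheory.tendsto_cdf_atTop (ProbabilityTheory.gaussianReal 0 1)
    have h2 := h.eventually (lt_mem_nhds (show (1 : ℝ) - 1 / (8 * q) < 1 by linarith))
    obtain ⟨x1, hx1⟩ := h2.exists
    exact ⟨x1, hx1.le⟩
  set K0 : ℝ := Real.log 4 + 1 + a with hK0
  have hK0pos : 0 < K0 := by
    have : 0 < Real.log 4 := Real.log_pos (by norm_num)
    positivity
  set T : ℝ := 640 + 4 * K0 + 16 * x1 ^ 2 with hT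
  have hlogT : Tendsto (fun N : ℕ => Real.log (Real.log N)) atTop atTop :=
    Real.tendsto_log_atTop.comp (Real.tendsto_log_atTop.comp tendsto_natCast_atTop_atTop)
  obtain ⟨N1, hN1⟩ := (hlogT.eventually_ge_atTop T).exists_forall_of_atTop
  refine ⟨1 / (8 * q), hc8, max N1 (max (16 * q ^ 2) 1000 * q + 1), fun N hN α hα1 hα2 => ?_⟩
  have hNN1 : N1 ≤ N := le_trans (le_max_left _ _) hN
  have hNN2 : max (16 * q ^ 2) 1000 * q + 1 ≤ N := le_trans (le_max_right _ _) hN
  have hN16 : 16 * q ^ 2 ≤ N := by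
    have h1 : 16 * q ^ 2 * 1 ≤ max (16 * q ^ 2) 1000 * q := Nat.mul_le_mul (le_max_left _ _) hq
    omega
  have hN1000 : 1000 * q ≤ N := by
    have h1 : 1000 * q ≤ max (16 * q ^ 2) 1000 * q := Nat.mul_le_mul_right q (le_max_right _ _)
    omega
  set l : ℝ := Real.log (Real.log N) with hl
  have hlT : T ≤ l := hN1 N hNN1
  set M : ℕ := N / q with hM
  have hM1000 : 1000 ≤ M := by
    rw [hM, Nat.le_div_iff_mul_le hq]; exact hN1000
  have hNM : N < (M + 1) * q := by
    have h1 := Nat.div_add_mod N q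
    have h2 := Nat.mod_lt N hq
    rw [hM]; nlinarith
  have hMN : M * q ≤ N := Nat.div_mul_le_self N q
  set y : ℕ := Nat.sqrt M with hy
  have hy1 : M < (y + 1) * (y + 1) := Nat.lt_succ_sqrt M
  have hy3 : 3 ≤ y := by rw [hy, Nat.le_sqrt]; omega
  have hNy : N < (y + 1) * (y + 1) * q :=
    hNM.trans_le (Nat.mul_le_mul_right q hy1)
  have hNy2 : N < 4 * y ^ 2 * q := by
    refine hNy.trans_le (Nat.mul_le_mul_right q ?_)
    nlinarith
  have hy4q : 4 * q ≤ y ^ 2 := by
    by_contra hcon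
    push Not at hcon
    have : 4 * y ^ 2 * q ≤ 4 * (4 * q) * q := by
      apply Nat.mul_le_mul_right
      omega
    nlinarith
  have hNy4 : N ≤ y ^ 4 := by
    have h1 : 4 * y ^ 2 * q ≤ y ^ 2 * y ^ 2 := by
      calc 4 * y ^ 2 * q = y ^ 2 * (4 * q) := by ring
        _ ≤ y ^ 2 * y ^ 2 := Nat.mul_le_mul_left _ hy4q
    have h2 : y ^ 4 = y ^ 2 * y ^ 2 := by ring
    omega
  have hNpos : 0 < N := by omega
  have hNR : (0 : ℝ) < N := by exact_mod_cast hNpos
  have hN3 : (3 : ℝ) ≤ N := by exact_mod_cast (by omega : 3 ≤ N)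
  have hlogN : 0 < Real.log N := Real.log_pos (by linarith)
  have hylog : Real.log N / 4 ≤ Real.log y := by
    have h1 : Real.log N ≤ Real.log ((y : ℝ) ^ 4) :=
      Real.log_le_log hNR (by exact_mod_cast hNy4)
    rw [Real.log_pow] at h1
    push_cast at h1
    linarith
  have hyll : l - Real.log 4 ≤ Real.log (Real.log y) := by
    have h1 := Real.log_le_log (by positivity) hylog
    rwa [Real.log_div hlogN.ne' (by norm_num)] at h1
  set L : ℝ := ∑ p ∈ SS a M, (1 : ℝ) / p with hL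
  have hL1 : l - K0 ≤ L := by
    have := SS_sum a M ha hy3
    rw [← hL, ← hy] at this
    rw [hK0]; linarith
  have hL640 : 640 ≤ L := by nlinarith [sq_nonneg x1]
  obtain ⟨v, hv⟩ := exists_common_inv a (SS a M) (fun p hp => SS_spec hp)
  have hgood := good_card a M v (by omega) hL640
  rw [← hL] at hgood
  set G := (Finset.Ioc 0 M).filter (fun m => 2 ≤ m ∧ 7 / 8 * L ≤ (wS (SS a M) 0 m : ℝ) ∧
      7 / 8 * L ≤ (wS (SS a M) v m : ℝ)) with hG
  have hl0 : 0 < l := by nlinarith [sq_nonneg x1]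
  have hsq : Real.sqrt l * Real.sqrt l = l := Real.mul_self_sqrt hl0.le
  have hsqpos : 0 < Real.sqrt l := Real.sqrt_pos.mpr hl0
  have hsq4 : 4 * |x1| ≤ Real.sqrt l := by
    apply Real.le_sqrt_of_sq_le
    have : (4 * |x1|) ^ 2 = 16 * x1 ^ 2 := by rw [mul_pow, sq_abs]; norm_num
    rw [this]; linarith
  have hXbig : ∀ m ∈ G, x1 < X α (-1) γ N (q * m) := by
    intro m hm
    rw [hG, Finset.mem_filter, Finset.mem_Ioc] at hm
    obtain ⟨⟨hm0, hmM⟩, hm2, hw0, hwv⟩ := hm
    have hmN : q * m ≤ N := by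
      calc q * m ≤ q * M := Nat.mul_le_mul_left q hmM
        _ = M * q := mul_comm _ _
        _ ≤ N := hMN
    have ham : 2 ≤ a * m := by nlinarith
    have hfl := floor_eq a q ha hq γ hγ0 N α hα1 hα2 m (by omega) hmN
    have hom := omega_ge a q hq (SS a M) (fun p hp => SS_spec hp) v hv m (by omega) ham
    unfold X
    rw [hfl, lt_div_iff₀ hsqpos]
    have homR : ((wS (SS a M) 0 m : ℝ)) + (wS (SS a M) v m : ℝ)
        ≤ ((q * m * (a * m - 1)).primeFactors.card : ℝ) := by exact_mod_cast hom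
    have h1 : x1 * Real.sqrt l ≤ l / 4 := by
      have h2 : x1 * Real.sqrt l ≤ |x1| * Real.sqrt l :=
        mul_le_mul_of_nonneg_right (le_abs_self _) hsqpos.le
      have h3 : |x1| * Real.sqrt l ≤ (Real.sqrt l / 4) * Real.sqrt l :=
        mul_le_mul_of_nonneg_right (by linarith) hsqpos.le
      have h4 : (Real.sqrt l / 4) * Real.sqrt l = l / 4 := by
        rw [div_mul_eq_mul_div, hsq]
      linarith
    nlinarith [sq_nonneg x1]
  have hdistr : distr α (-1) γ N x1 ≤ 1 - 1 / (4 * q) := by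
    unfold distr
    rw [div_le_iff₀ hNR]
    set F := (Finset.Icc 1 N).filter (fun n => X α (-1) γ N n ≤ x1) with hF
    have himg : (G.image (fun m => q * m)).card = G.card := by
      apply Finset.card_image_of_injective
      intro m m' h
      exact Nat.eq_of_mul_eq_mul_left hq h
    have hdisj : Disjoint F (G.image (fun m => q * m)) := by
      rw [Finset.disjoint_left]
      intro n hn hn'
      rw [hF, Finset.mem_filter] at hn
      rw [Finset.mem_image] at hn'
      obtain ⟨m, hm, rfl⟩ := hn'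
      exact absurd hn.2 (not_le.mpr (hXbig m hm))
    have hsub : F ∪ G.image (fun m => q * m) ⊆ Finset.Icc 1 N := by
      apply Finset.union_subset (Finset.filter_subset _ _)
      intro n hn
      rw [Finset.mem_image] at hn
      obtain ⟨m, hm, rfl⟩ := hn
      rw [hG, Finset.mem_filter, Finset.mem_Ioc] at hm
      rw [Finset.mem_Icc]
      constructor
      · exact Nat.mul_pos hq hm.1.1
      · calc q * m ≤ q * M := Nat.mul_le_mul_left q hm.1.2
          _ = M * q := mul_comm _ _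
          _ ≤ N := hMN
    have hcard := Finset.card_le_card hsub
    rw [Finset.card_union_of_disjoint hdisj, himg, Nat.card_Icc] at hcard
    have hcardR : (F.card : ℝ) + G.card ≤ N := by
      have : F.card + G.card ≤ N := by omega
      exact_mod_cast this
    have hM2 : (N : ℝ) ≤ 2 * M * q := by
      have : N ≤ 2 * M * q := by nlinarith
      exact_mod_cast this
    have h3 : (N : ℝ) / (4 * q) ≤ M / 2 := by
      rw [div_le_div_iff₀ (by positivity) (by norm_num)]
      nlinarith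
    have h4 : (1 - 1 / (4 * (q : ℝ))) * N = N - N / (4 * q) := by ring
    rw [h4]
    linarith
  have hfin := dK_ge α (-1) γ N x1
  have h5 : 1 / (8 * (q : ℝ)) ≤ |distr α (-1) γ N x1 -
      ProbabilityTheory.cdf (ProbabilityTheory.gaussianReal 0 1) x1| := by
    rw [abs_sub_comm]
    refine le_trans ?_ (le_abs_self _)
    have h6 : 1 / (4 * (q : ℝ)) = 2 * (1 / (8 * q)) := by field_simp; norm_num
    rw [h6] at hdistr
    linarith
  exact h5.trans hfin

end Pool.Agent.H1.EK
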