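import Mathlib
import Pool.Agent.H1.EKMain

set_option autoImplicit false

namespace Pool.Agent.H1.EK

open Finset Filter Topology

lemma exists_delta (η : ℕ → ℝ) (hη : Tendsto η atTop (𝓝 0)) (γ : ℝ) (hγ0 : 0 < γ) (hγ1 : γ < 1)
    (a q k : ℕ) : ∃ δ : ℝ, 0 < δ ∧ (0 < a → 0 < q → ∀ α : ℝ, (a : ℝ) / q < α →
      α < (a : ℝ) / q + δ → ∃ N : ℕ, k ≤ N ∧ (k : ℝ) * |η N| < dK α (-1) γ N) := by
  by_cases ha : 0 < a
  swap
  · exact ⟨1, one_pos, fun h => absurd h ha⟩
  by_cases hq : 0 < q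
  swap
  · exact ⟨1, one_pos, fun _ h => absurd h hq⟩
  obtain ⟨c0, hc0, N0, hN0⟩ := key a q ha hq γ hγ0
  have h1 : Tendsto (fun N => (k : ℝ) * |η N|) atTop (𝓝 0) := by
    have := (hη.abs).const_mul (k : ℝ)
    simpa using this
  have h2 := h1.eventually (gt_mem_nhds hc0)
  obtain ⟨N, hN⟩ := (h2.and (eventually_ge_atTop (max (max N0 k) 1))).exists
  obtain ⟨hN1, hN2⟩ := hN
  have hNN0 : N0 ≤ N := (le_max_left _ _).trans ((le_max_left _ _).trans hN2)
  have hNk : k ≤ N := (le_max_right _ _).trans ((le_max_left _ _).trans hN2)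
  have hNpos : 1 ≤ N := (le_max_right _ _).trans hN2
  have hNR : (0 : ℝ) < (N : ℝ) ^ 2 := by
    have : (1 : ℝ) ≤ N := by exact_mod_cast hNpos
    positivity
  refine ⟨(1 - γ) / (N : ℝ) ^ 2, div_pos (by linarith) hNR, fun _ _ α hα1 hα2 => ⟨N, hNk, ?_⟩⟩
  refine lt_of_lt_of_le hN1 (hN0 N hNN0 α hα1.le ?_)
  have h3 : α - a / q < (1 - γ) / (N : ℝ) ^ 2 := by linarith
  rwa [lt_div_iff₀ hNR] at h3

/-- For every sequence tending to zero, the set of bad `α` is dense in `(1 / (4 γ), ∞)`. -/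
theorem final (η : ℕ → ℝ) (hη : Tendsto η atTop (𝓝 0)) (γ : ℝ) (hγ0 : 0 < γ) (hγ1 : γ < 1)
    (u v : ℝ) (hu : 1 / (4 * γ) ≤ u) (huv : u < v) :
    ∃ α : ℝ, u < α ∧ α < v ∧ Admissible α (-1) γ ∧
      ¬ (fun N => dK α (-1) γ N) =O[atTop] η := by
  choose δ hδ0 hδ using exists_delta η hη γ hγ0 hγ1
  let U : ℕ → Set ℝ := fun k => Set.Iio 0 ∪
    ⋃ (a : ℕ) (q : ℕ) (_ : 0 < a) (_ : 0 < q), Set.Ioo ((a : ℝ) / q) ((a : ℝ) / q + δ a q k)
  have hopen : ∀ k, IsOpen (U k) := by
    intro k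
    apply isOpen_Iio.union
    exact isOpen_iUnion fun a => isOpen_iUnion fun q => isOpen_iUnion fun _ =>
      isOpen_iUnion fun _ => isOpen_Ioo
  have hdense : ∀ k, Dense (U k) := by
    intro k
    apply dense_of_exists_between
    intro x y hxy
    by_cases hx : x < 0
    · refine ⟨(x + min y 0) / 2, Or.inl ?_, ?_, ?_⟩
      · have := min_le_right y 0
        show (x + min y 0) / 2 < 0
        linarith
      · have : x < min y 0 := lt_min hxy hx
        linarith
      · have h1 := min_le_left y 0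
        linarith
    · push Not at hx
      obtain ⟨r, hr1, hr2⟩ := exists_rat_btwn hxy
      have hr0 : (0 : ℝ) < r := lt_of_le_of_lt hx hr1
      have hr0' : 0 < r := by exact_mod_cast hr0
      have hnum : 0 < r.num := Rat.num_pos.mpr hr0'
      obtain ⟨a, ha⟩ : ∃ a : ℕ, (a : ℤ) = r.num := ⟨r.num.toNat, Int.toNat_of_nonneg hnum.le⟩
      have ha0 : 0 < a := by
        have : (0 : ℤ) < a := by rw [ha]; exact hnum
        exact_mod_cast this
      have hrr : (a : ℝ) / r.den = r := by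
        have h1 : ((a : ℤ) : ℝ) / (r.den : ℝ) = r := by
          rw [ha]; exact_mod_cast (Rat.num_div_den r)
        simpa using h1
      have hδ' := hδ0 a r.den k
      refine ⟨r + min ((y - r) / 2) (δ a r.den k / 2), Or.inr ?_, ?_, ?_⟩
      · simp only [Set.mem_iUnion]
        refine ⟨a, r.den, ha0, r.den_pos, ?_⟩
        rw [hrr]
        constructor
        · have : 0 < min ((y - r) / 2) (δ a r.den k / 2) := lt_min (by linarith) (by linarith)
          linarith
        · have := min_le_right ((y - r) / 2) (δ a r.den k / 2)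
          linarith
      · have : 0 < min ((y - r) / 2) (δ a r.den k / 2) := lt_min (by linarith) (by linarith)
        linarith
      · have := min_le_left ((y - r) / 2) (δ a r.den k / 2)
        linarith
  have hG1 : IsGδ (⋂ k, U k) := IsGδ.iInter_of_isOpen hopen
  have hD1 : Dense (⋂ k, U k) := dense_iInter_of_isOpen_nat hopen hdense
  have hD : Dense ((⋂ k, U k) ∩ {x : ℝ | Irrational x}) :=
    Dense.inter_of_Gδ hG1 IsGδ.setOfPred_irrational hD1 dense_irrational
  obtain ⟨α, ⟨hαu, hαv⟩, hα, hirr⟩ := hD.inter_open_nonempty (Set.Ioo u v) isOpen_Ioo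
    ⟨(u + v) / 2, by linarith, by linarith⟩
  have h4γ : 0 < 1 / (4 * γ) := by positivity
  have hα0 : 0 < α := by linarith
  refine ⟨α, hαu, hαv, ⟨hα0, ?_, ?_⟩, ?_⟩
  · have h1 : 1 / (4 * γ) < α := lt_of_le_of_lt hu hαu
    rw [div_lt_iff₀ (by positivity)] at h1
    linarith
  · rintro ⟨⟨r, hr⟩, -⟩
    exact hirr ⟨r, hr⟩
  · intro hO
    obtain ⟨C, hC⟩ := hO.bound
    obtain ⟨N0, hN0⟩ := hC.exists_forall_of_atTop
    obtain ⟨k, hk⟩ := exists_nat_ge (max C N0)
    have hkC : C ≤ k := (le_max_left _ _).trans hk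
    have hkN : N0 ≤ k := by
      have : (N0 : ℝ) ≤ k := (le_max_right _ _).trans hk
      exact_mod_cast this
    have hUk : α ∈ U k := Set.mem_iInter.mp hα k
    rcases hUk with h | h
    · exact absurd h (not_lt.mpr hα0.le)
    · simp only [Set.mem_iUnion] at h
      obtain ⟨a, q, ha, hq, h1, h2⟩ := h
      obtain ⟨N, hN, hlt⟩ := hδ a q k ha hq α h1 h2
      have h3 := hN0 N (hkN.trans hN)
      rw [Real.norm_eq_abs, Real.norm_eq_abs] at h3
      have h4 : C * |η N| ≤ k * |η N| := mul_le_mul_of_nonneg_right hkC (abs_nonneg _)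
      have h5 := le_abs_self (dK α (-1) γ N)
      linarith

end Pool.Agent.H1.EK
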