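import Mathlib

set_option autoImplicit false

namespace Pool.Agent.H1.Ell

open Filter Topology Complex

/-- twisted prime sum -/
noncomputable def S {q : ℕ} (χ : DirichletCharacter ℂ q) (u : ℝ) (X : ℕ) : ℝ :=
  ∑ p ∈ X.primesBelow, (1 - (χ p * (p : ℂ) ^ (-(u : ℂ) * I)).re) / p

lemma norm_char_cpow_le {q : ℕ} (χ : DirichletCharacter ℂ q) (u : ℝ) (p : ℕ) (hp : 0 < p) :
    ‖χ p * (p : ℂ) ^ (-(u : ℂ) * I)‖ ≤ 1 := by
  rw [norm_mul]
  have h1 : ‖(p : ℂ) ^ (-(u : ℂ) * I)‖ = 1 := by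
    rw [Complex.norm_natCast_cpow_of_pos hp]
    simp
  rw [h1, mul_one]
  exact χ.norm_le_one _

lemma term_nonneg {q : ℕ} (χ : DirichletCharacter ℂ q) (u : ℝ) (p : ℕ) (hp : 0 < p) :
    0 ≤ (1 - (χ p * (p : ℂ) ^ (-(u : ℂ) * I)).re) / p := by
  have h1 := (Complex.re_le_norm _).trans (norm_char_cpow_le χ u p hp)
  have : (0 : ℝ) < p := by exact_mod_cast hp
  apply div_nonneg _ this.le
  linarith

lemma exists_prime_sum_ge (K : ℝ) : ∃ X : ℕ, K ≤ ∑ p ∈ X.primesBelow, (1 : ℝ) / p := by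
  by_contra hcon
  push Not at hcon
  apply Nat.Primes.not_summable_one_div
  apply summable_of_sum_le (c := K)
  · intro p; positivity
  · intro F
    obtain ⟨X, hX⟩ : ∃ X : ℕ, ∀ p ∈ F, (p : ℕ) < X := by
      refine ⟨F.sup (fun p : Nat.Primes => (p : ℕ)) + 1, fun p hp => ?_⟩
      exact Nat.lt_succ_of_le (Finset.le_sup (f := fun p : Nat.Primes => (p : ℕ)) hp)
    refine le_trans ?_ (hcon X).le
    have : ∑ p ∈ F, (1 : ℝ) / ((p : ℕ) : ℝ)
        = ∑ p ∈ F.map ⟨fun p : Nat.Primes => (p : ℕ), Subtype.val_injective⟩, (1 : ℝ) / p := by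
      rw [Finset.sum_map]; rfl
    rw [this]
    apply Finset.sum_le_sum_of_subset_of_nonneg
    · intro p hp
      rw [Finset.mem_map] at hp
      obtain ⟨p', hp', rfl⟩ := hp
      rw [Nat.mem_primesBelow]
      exact ⟨hX p' hp', p'.2⟩
    · intro p _ _; positivity

lemma sum_finset_le_tsum (f : ℕ → ℝ) (hf : ∀ p, 0 ≤ f p)
    (h : Summable (fun p : Nat.Primes => f (p : ℕ))) (F : Finset Nat.Primes) :
    ∑ p ∈ F, f (p : ℕ) ≤ ∑' p : Nat.Primes, f (p : ℕ) :=
  h.sum_le_tsum _ (fun p _ => hf _)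

lemma sum_primesBelow_le_tsum (X : ℕ) (f : ℕ → ℝ) (hf : ∀ p, 0 ≤ f p)
    (h : Summable (fun p : Nat.Primes => f (p : ℕ))) :
    ∑ p ∈ X.primesBelow, f p ≤ ∑' p : Nat.Primes, f (p : ℕ) := by
  have h4 : ∑ p ∈ X.primesBelow, f p
      = ∑ p ∈ X.primesBelow.attach.map ⟨fun p : {p // p ∈ X.primesBelow} => (⟨(p : ℕ),
          Nat.prime_of_mem_primesBelow p.2⟩ : Nat.Primes), by
            intro a b h
            exact Subtype.ext (congrArg (fun z : Nat.Primes => (z : ℕ)) h)⟩,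
        f (p : ℕ) := by
    rw [Finset.sum_map]
    exact (Finset.sum_attach _ f).symm
  rw [h4]
  exact sum_finset_le_tsum f hf h _

lemma S_unbounded {q : ℕ} [NeZero q] (χ : DirichletCharacter ℂ q) {u : ℝ} (hu : u ≠ 0) (B : ℝ) :
    ∃ X : ℕ, B < S χ u X := by
  by_contra hcon
  push Not at hcon
  -- bound for the L-function near `1 + iu`
  obtain ⟨C, hC⟩ := (DirichletCharacter.LFunction_isBigO_horizontal (χ := χ) (Or.inl hu)).bound
  set C' : ℝ := max C 1 with hC'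
  -- the sum of squares
  have hsq : Summable (fun p : Nat.Primes => ((p : ℕ) : ℝ) ^ (-2 : ℝ)) :=
    Nat.Primes.summable_rpow.mpr (by norm_num)
  set C2 : ℝ := ∑' p : Nat.Primes, ((p : ℕ) : ℝ) ^ (-2 : ℝ) with hC2
  obtain ⟨X, hX⟩ := exists_prime_sum_ge (B + Real.log C' + C2 + 2)
  -- continuity of the finite sum
  have hcont : Tendsto (fun x : ℝ => ∑ p ∈ X.primesBelow, (p : ℝ) ^ (-(1 + x))) (𝓝[>] 0)
      (𝓝 (∑ p ∈ X.primesBelow, (1 : ℝ) / p)) := by
    apply tendsto_finsetSum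
    intro p hp
    have hp0 : (0 : ℝ) < p := by exact_mod_cast (Nat.prime_of_mem_primesBelow hp).pos
    have h1 : ContinuousAt (fun x : ℝ => (p : ℝ) ^ (-(1 + x))) 0 := by
      apply ContinuousAt.rpow continuousAt_const
      · fun_prop
      · left; exact hp0.ne'
    have h2 : (p : ℝ) ^ (-(1 + (0 : ℝ))) = 1 / p := by
      rw [add_zero, Real.rpow_neg_one, one_div]
    have h3 := h1.tendsto
    rw [h2] at h3
    exact h3.mono_left nhdsWithin_le_nhds
  have hev := hcont.eventually (lt_mem_nhds (show ∑ p ∈ X.primesBelow, (1 : ℝ) / p - 1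
    < ∑ p ∈ X.primesBelow, (1 : ℝ) / p by linarith))
  obtain ⟨x, ⟨hx1, hx2⟩, hx0⟩ := ((hev.and hC).and self_mem_nhdsWithin).exists
  have hx0' : (0 : ℝ) < x := hx0
  set s : ℂ := 1 + x + I * u with hs
  have hsre : s.re = 1 + x := by simp [hs]
  have hs1 : 1 < s.re := by rw [hsre]; linarith
  have hsum := DirichletCharacter.summable_neg_log_one_sub_mul_prime_cpow χ hs1
  have hexp := DirichletCharacter.LSeries_eulerProduct_exp_log χ hs1
  have hL : ‖LSeries (fun n => χ n) s‖ ≤ C' := by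
    rw [← DirichletCharacter.LFunction_eq_LSeries χ hs1]
    have : ‖DirichletCharacter.LFunction χ (1 + x + I * u)‖ ≤ C * ‖(1 : ℂ)‖ := hx2
    rw [norm_one, mul_one] at this
    exact this.trans (le_max_left _ _)
  rw [← hexp, Complex.norm_exp, Complex.re_tsum hsum] at hL
  have hlog : ∑' p : Nat.Primes, (-Complex.log (1 - χ p * (p : ℂ) ^ (-s))).re ≤ Real.log C' := by
    rw [← Real.log_exp (∑' p : Nat.Primes, (-Complex.log (1 - χ p * (p : ℂ) ^ (-s))).re)]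
    exact Real.log_le_log (Real.exp_pos _) hL
  -- termwise comparison
  have hnorm : ∀ p : Nat.Primes, ‖χ p * (p : ℂ) ^ (-s)‖ ≤ ((p : ℕ) : ℝ) ^ (-(1 + x)) := by
    intro p
    rw [norm_mul, Complex.norm_natCast_cpow_of_pos p.2.pos]
    have h1 : (-s).re = -(1 + x) := by rw [Complex.neg_re, hsre]
    rw [h1]
    have h2 := χ.norm_le_one (p : ZMod q)
    have h3 : (0 : ℝ) ≤ ((p : ℕ) : ℝ) ^ (-(1 + x)) := by positivity
    calc ‖χ p‖ * ((p : ℕ) : ℝ) ^ (-(1 + x)) ≤ 1 * ((p : ℕ) : ℝ) ^ (-(1 + x)) :=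
          mul_le_mul_of_nonneg_right h2 h3
      _ = _ := one_mul _
  have hple : ∀ p : Nat.Primes, ((p : ℕ) : ℝ) ^ (-(1 + x)) ≤ 1 / ((p : ℕ) : ℝ) := by
    intro p
    have h1 : (1 : ℝ) ≤ ((p : ℕ) : ℝ) := by exact_mod_cast p.2.one_lt.le
    have h2 : ((p : ℕ) : ℝ) ^ (-(1 + x)) ≤ ((p : ℕ) : ℝ) ^ (-1 : ℝ) :=
      Real.rpow_le_rpow_of_exponent_le h1 (by linarith)
    rwa [Real.rpow_neg_one, ← one_div] at h2
  have hterm : ∀ p : Nat.Primes, (χ p * (p : ℂ) ^ (-s)).re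
      ≤ (-Complex.log (1 - χ p * (p : ℂ) ^ (-s))).re + ((p : ℕ) : ℝ) ^ (-2 : ℝ) := by
    intro p
    set z : ℂ := χ p * (p : ℂ) ^ (-s) with hz
    have hp2 : (2 : ℝ) ≤ ((p : ℕ) : ℝ) := by exact_mod_cast p.2.two_le
    have hz1 : ‖z‖ ≤ 1 / ((p : ℕ) : ℝ) := (hnorm p).trans (hple p)
    have hz2 : ‖z‖ ≤ 1 / 2 := hz1.trans (by
      apply div_le_div_of_nonneg_left <;> linarith)
    have hz3 : ‖z‖ < 1 := by linarith
    have h1 := Complex.norm_log_one_sub_inv_sub_self_le hz3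
    have h2 : Complex.log (1 - z)⁻¹ = -Complex.log (1 - z) := by
      rw [Complex.log_inv]
      intro harg
      have h4 : 0 < (1 - z).re := by
        have := Complex.re_le_norm z
        rw [Complex.sub_re, Complex.one_re]
        linarith
      have h6 := (Complex.abs_arg_lt_pi_div_two_iff).mpr (Or.inl h4)
      rw [harg, abs_of_pos Real.pi_pos] at h6
      linarith [Real.pi_pos]
    rw [h2] at h1
    have h3 : ‖z‖ ^ 2 * (1 - ‖z‖)⁻¹ / 2 ≤ ‖z‖ ^ 2 := by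
      have h4 : (1 - ‖z‖)⁻¹ ≤ 2 := by
        rw [inv_le_comm₀ (by linarith) (by norm_num)]
        linarith
      have h5 : 0 ≤ ‖z‖ ^ 2 := by positivity
      nlinarith
    have h4 : ‖z‖ ^ 2 ≤ ((p : ℕ) : ℝ) ^ (-2 : ℝ) := by
      have h5 : ((p : ℕ) : ℝ) ^ (-2 : ℝ) = (1 / ((p : ℕ) : ℝ)) ^ 2 := by
        rw [Real.rpow_neg (by positivity), one_div, inv_pow]
        norm_cast
      rw [h5]
      exact pow_le_pow_left₀ (norm_nonneg _) hz1 2
    have h5 : (z - -Complex.log (1 - z)).re ≤ ‖-Complex.log (1 - z) - z‖ := by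
      rw [norm_sub_rev]
      exact Complex.re_le_norm _
    rw [Complex.sub_re] at h5
    linarith
  have hsumz : Summable (fun p : Nat.Primes => χ p * (p : ℂ) ^ (-s)) := by
    apply Summable.of_norm_bounded (g := fun p : Nat.Primes => ((p : ℕ) : ℝ) ^ (-(1 + x)))
    · exact Nat.Primes.summable_rpow.mpr (by linarith)
    · exact hnorm
  have hsumzre : Summable (fun p : Nat.Primes => (χ p * (p : ℂ) ^ (-s)).re) :=
    (Complex.hasSum_re hsumz.hasSum).summable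
  have hsumlog : Summable (fun p : Nat.Primes => (-Complex.log (1 - χ p * (p : ℂ) ^ (-s))).re) :=
    (Complex.hasSum_re hsum.hasSum).summable
  have h1 : ∑' p : Nat.Primes, (χ p * (p : ℂ) ^ (-s)).re ≤ Real.log C' + C2 := by
    have h2 := Summable.tsum_le_tsum hterm hsumzre (hsumlog.add hsq)
    rw [Summable.tsum_add hsumlog hsq] at h2
    linarith
  have hsump : Summable (fun p : Nat.Primes => ((p : ℕ) : ℝ) ^ (-(1 + x))) :=
    Nat.Primes.summable_rpow.mpr (by linarith)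
  -- upper bound for the weighted sum
  have h2 : ∑' p : Nat.Primes, (((p : ℕ) : ℝ) ^ (-(1 + x)) - (χ p * (p : ℂ) ^ (-s)).re) ≤ B := by
    have hfac : ∀ p : Nat.Primes, (((p : ℕ) : ℝ) ^ (-(1 + x)) - (χ p * (p : ℂ) ^ (-s)).re)
        = (1 - (χ p * (p : ℂ) ^ (-(u : ℂ) * I)).re) * ((p : ℕ) : ℝ) ^ (-(1 + x)) := by
      intro p
      have hp0 : ((p : ℕ) : ℂ) ≠ 0 := by exact_mod_cast p.2.ne_zero
      have e1 : -s = ((-(1 + x) : ℝ) : ℂ) + (-(u : ℂ) * I) := by
        rw [hs]; push_cast; ring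
      have e2 : ((p : ℕ) : ℂ) ^ (((-(1 + x) : ℝ) : ℂ)) = ((((p : ℕ) : ℝ) ^ (-(1 + x)) : ℝ) : ℂ) := by
        rw [Complex.ofReal_cpow (by positivity)]
        norm_cast
      rw [e1, Complex.cpow_add _ _ hp0, e2]
      have e3 : χ p * (((((p : ℕ) : ℝ) ^ (-(1 + x)) : ℝ) : ℂ) * ((p : ℕ) : ℂ) ^ (-(u : ℂ) * I))
          = ((((p : ℕ) : ℝ) ^ (-(1 + x)) : ℝ) : ℂ) * (χ p * ((p : ℕ) : ℂ) ^ (-(u : ℂ) * I)) := by ring
      rw [e3, Complex.re_ofReal_mul]
      ring
    apply Real.tsum_le_of_sum_le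
    · intro p
      show 0 ≤ (((p : ℕ) : ℝ) ^ (-(1 + x)) - (χ p * (p : ℂ) ^ (-s)).re)
      rw [hfac p]
      have h3 := (Complex.re_le_norm _).trans (norm_char_cpow_le χ u p p.2.pos)
      apply mul_nonneg _ (by positivity)
      linarith
    · intro F
      obtain ⟨Y, hY⟩ : ∃ X : ℕ, ∀ p ∈ F, (p : ℕ) < X := by
        refine ⟨F.sup (fun p : Nat.Primes => (p : ℕ)) + 1, fun p hp => ?_⟩
        exact Nat.lt_succ_of_le (Finset.le_sup (f := fun p : Nat.Primes => (p : ℕ)) hp)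
      refine le_trans ?_ (hcon Y)
      have h3 : ∑ p ∈ F, (((p : ℕ) : ℝ) ^ (-(1 + x)) - (χ p * (p : ℂ) ^ (-s)).re)
          ≤ ∑ p ∈ F, (1 - (χ (p : ℕ) * ((p : ℕ) : ℂ) ^ (-(u : ℂ) * I)).re) / ((p : ℕ) : ℝ) := by
        apply Finset.sum_le_sum
        intro p _
        rw [hfac p, div_eq_mul_one_div]
        apply mul_le_mul_of_nonneg_left (hple p)
        have h3 := (Complex.re_le_norm _).trans (norm_char_cpow_le χ u p p.2.pos)
        linarith
      refine h3.trans ?_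
      have h4 : ∑ p ∈ F, (1 - (χ (p : ℕ) * ((p : ℕ) : ℂ) ^ (-(u : ℂ) * I)).re) / ((p : ℕ) : ℝ)
          = ∑ p ∈ F.map ⟨fun p : Nat.Primes => (p : ℕ), Subtype.val_injective⟩,
            (1 - (χ p * (p : ℂ) ^ (-(u : ℂ) * I)).re) / p := by
        rw [Finset.sum_map]; rfl
      rw [h4]
      unfold S
      apply Finset.sum_le_sum_of_subset_of_nonneg
      · intro p hp
        rw [Finset.mem_map] at hp
        obtain ⟨p', hp', rfl⟩ := hp
        rw [Nat.mem_primesBelow]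
        exact ⟨hY p' hp', p'.2⟩
      · intro p hp _
        exact term_nonneg χ u p (Nat.prime_of_mem_primesBelow hp).pos
  rw [Summable.tsum_sub hsump hsumzre] at h2
  have h3 : ∑ p ∈ X.primesBelow, (p : ℝ) ^ (-(1 + x)) ≤ ∑' p : Nat.Primes, ((p : ℕ) : ℝ) ^ (-(1 + x)) :=
    sum_primesBelow_le_tsum X (fun p : ℕ => (p : ℝ) ^ (-(1 + x))) (fun p => by positivity) hsump
  have h5 : 0 ≤ C2 := tsum_nonneg (fun p => by positivity)
  linarith

lemma S_mono {q : ℕ} (χ : DirichletCharacter ℂ q) (u : ℝ) {X Y : ℕ} (h : X ≤ Y) :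
    S χ u X ≤ S χ u Y := by
  unfold S
  apply Finset.sum_le_sum_of_subset_of_nonneg
  · intro p hp
    rw [Nat.mem_primesBelow] at hp ⊢
    exact ⟨hp.1.trans_le h, hp.2⟩
  · intro p hp _
    exact term_nonneg χ u p (Nat.prime_of_mem_primesBelow hp).pos

lemma S_continuous {q : ℕ} (χ : DirichletCharacter ℂ q) (X : ℕ) :
    Continuous (fun u : ℝ => S χ u X) := by
  unfold S
  apply continuous_finsetSum
  intro p hp
  have hp0 : ((p : ℕ) : ℂ) ≠ 0 := by exact_mod_cast (Nat.prime_of_mem_primesBelow hp).ne_zero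
  apply Continuous.div_const
  apply Continuous.sub continuous_const
  apply Complex.continuous_re.comp
  apply Continuous.mul continuous_const
  apply Continuous.const_cpow _ (Or.inl hp0)
  fun_prop

lemma S_uniform {q : ℕ} [NeZero q] (χ : DirichletCharacter ℂ q) (B a b : ℝ) (ha : 0 < a) :
    ∀ᶠ X : ℕ in atTop, ∀ u ∈ Set.Icc a b, B ≤ S χ u X := by
  obtain ⟨X, hX⟩ := (isCompact_Icc (a := a) (b := b)).elim_directed_cover
    (fun X : ℕ => {u : ℝ | B < S χ u X})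
    (fun X => isOpen_lt continuous_const (S_continuous χ X))
    (by
      intro u hu
      obtain ⟨X, hX⟩ := S_unbounded χ (u := u) (by linarith [hu.1]) B
      exact Set.mem_iUnion.mpr ⟨X, hX⟩)
    (by
      intro X Y
      refine ⟨max X Y, ?_, ?_⟩
      · intro u hu
        exact lt_of_lt_of_le hu (S_mono χ u (le_max_left _ _))
      · intro u hu
        exact lt_of_lt_of_le hu (S_mono χ u (le_max_right _ _)))
  filter_upwards [eventually_ge_atTop X] with Y hY u hu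
  exact (le_of_lt (hX hu)).trans (S_mono χ u hY)

end Pool.Agent.H1.Ell
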