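import Mathlib

set_option autoImplicit false

namespace Pool.Agent.H1.Ell

open Filter Topology Complex

/-- A multiplicative function from the positive integers to the closed unit disc. -/
structure IsMult (f : ℕ → ℂ) : Prop where
  one : f 1 = 1
  mul : ∀ m n : ℕ, 0 < m → 0 < n → Nat.Coprime m n → f (m * n) = f m * f n
  bound : ∀ n : ℕ, 0 < n → ‖f n‖ ≤ 1

/-- The square of the pretentious distance: the sum over primes `p ≤ x` of
`(1 - Re (f p * conj (g p))) / p`. -/
noncomputable def distSq (f g : ℕ → ℂ) (x : ℕ) : ℝ :=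
  ∑ p ∈ (x + 1).primesBelow, (1 - (f p * (starRingEnd ℂ) (g p)).re) / p

/-- `f` is non-pretentious: its distance to every twisted Dirichlet character
`n ↦ χ n * n ^ (i t)` is infinite. -/
def NonPretentious (f : ℕ → ℂ) : Prop :=
  ∀ (q : ℕ) [NeZero q] (χ : DirichletCharacter ℂ q) (t : ℝ),
    Tendsto (distSq f (fun n => χ n * (n : ℂ) ^ ((t : ℂ) * I))) atTop atTop

/-- The `(k + 1)`-point correlations of `f₁` with arbitrary multiplicative functions at distinct
positive shifts tend to zero as `x` tends to infinity through `X`. -/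
def CorrVanish (k : ℕ) (f₁ : ℕ → ℂ) (X : Set ℕ) : Prop :=
  ∀ (F : Fin (k + 1) → ℕ → ℂ) (h : Fin (k + 1) → ℕ), F 0 = f₁ → (∀ i, IsMult (F i)) →
    Function.Injective h → (∀ i, 0 < h i) →
    Tendsto (fun x : ℕ => (∑ n ∈ Finset.Icc 1 x, ∏ i, F i (n + h i)) / (x : ℂ))
      (atTop ⊓ 𝓟 X) (𝓝 0)

/-- The lower logarithmic density of a set of natural numbers. -/
noncomputable def lowerLogDensity (X : Set ℕ) : ℝ :=
  Filter.liminf (fun x : ℕ => (∑ n ∈ Finset.Icc 1 x, X.indicator (fun n => 1 / (n : ℝ)) n)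
    / Real.log x) atTop

end Pool.Agent.H1.Ell
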