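import Mathlib
import Pool.Agent.H1.EllBlock

set_option autoImplicit false

namespace Pool.Agent.H1.Ell

open Filter Topology Complex

lemma norm_cpow_I (n : ℕ) (hn : 0 < n) (t : ℝ) : ‖(n : ℂ) ^ ((t : ℂ) * I)‖ = 1 := by
  rw [Complex.norm_natCast_cpow_of_pos hn]; simp

/-- simultaneous recurrence -/
lemma recur (X : ℕ) (ε : ℝ) (hε : 0 < ε) :
    ∃ s : ℝ, 1 ≤ s ∧ ∀ n : ℕ, 1 ≤ n → n < X → ‖(n : ℂ) ^ ((s : ℂ) * I) - 1‖ ≤ ε := by
  let v : ℕ → (Fin X → ℂ) := fun m n => if (n : ℕ) = 0 then 0 else ((n : ℕ) : ℂ) ^ (((m : ℝ) : ℂ) * I)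
  have hv : ∀ m, v m ∈ Metric.closedBall (0 : Fin X → ℂ) 1 := by
    intro m
    rw [mem_closedBall_zero_iff, pi_norm_le_iff_of_nonneg (by norm_num)]
    intro n
    simp only [v]
    split_ifs with h
    · simp
    · rw [norm_cpow_I _ (Nat.pos_of_ne_zero h)]
  obtain ⟨a, -, φ, hφ, hlim⟩ := (isCompact_closedBall (0 : Fin X → ℂ) 1).tendsto_subseq hv
  have hc := hlim.cauchySeq
  rw [Metric.cauchySeq_iff] at hc
  obtain ⟨N, hN⟩ := hc ε hε
  have h1 := hN (N + 1) (by omega) N (by omega)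
  have hlt : φ N < φ (N + 1) := hφ (Nat.lt_succ_self N)
  refine ⟨(φ (N + 1) : ℝ) - φ N, ?_, ?_⟩
  · have : (φ N : ℝ) + 1 ≤ φ (N + 1) := by exact_mod_cast hlt
    linarith
  · intro n hn hnX
    have h2 := (dist_le_pi_dist (v (φ (N + 1))) (v (φ N)) ⟨n, hnX⟩).trans h1.le
    have hn0 : n ≠ 0 := by omega
    simp only [v] at h2
    rw [if_neg hn0, if_neg hn0, dist_eq_norm] at h2
    have hnC : (n : ℂ) ≠ 0 := by exact_mod_cast hn0
    have e : (n : ℂ) ^ ((((φ (N + 1) : ℝ) - φ N : ℝ) : ℂ) * I) - 1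
        = ((n : ℂ) ^ (((φ (N + 1) : ℝ) : ℂ) * I) - (n : ℂ) ^ (((φ N : ℝ) : ℂ) * I))
          * ((n : ℂ) ^ (((φ N : ℝ) : ℂ) * I))⁻¹ := by
      have h3 : (n : ℂ) ^ (((φ N : ℝ) : ℂ) * I) ≠ 0 := by
        rw [Complex.cpow_ne_zero_iff]; exact Or.inl hnC
      rw [sub_mul, mul_inv_cancel₀ h3, ← Complex.cpow_neg, ← Complex.cpow_add _ _ hnC]
      congr 2
      push_cast; ring
    rw [e, norm_mul, norm_inv, norm_cpow_I n hn, inv_one, mul_one]
    exact h2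

/-- the completely multiplicative function with prescribed values at the primes -/
noncomputable def mk (g : ℕ → ℂ) (n : ℕ) : ℂ := n.factorization.prod (fun p k => g p ^ k)

lemma mk_one (g : ℕ → ℂ) : mk g 1 = 1 := by simp [mk]

lemma mk_mul (g : ℕ → ℂ) {m n : ℕ} (hm : m ≠ 0) (hn : n ≠ 0) : mk g (m * n) = mk g m * mk g n := by
  unfold mk
  rw [Nat.factorization_mul hm hn, Finsupp.prod_add_index']
  · intro p; simp
  · intro p a b; exact pow_add _ _ _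

lemma mk_prime (g : ℕ → ℂ) {p : ℕ} (hp : p.Prime) : mk g p = g p := by
  unfold mk
  rw [hp.factorization]
  simp

lemma norm_mk (g : ℕ → ℂ) (hg : ∀ p, p.Prime → ‖g p‖ = 1) (n : ℕ) : ‖mk g n‖ = 1 := by
  unfold mk
  rw [Finsupp.prod, norm_prod]
  apply Finset.prod_eq_one
  intro p hp
  have : p.Prime := Nat.prime_of_mem_primeFactors (by simpa using hp)
  rw [norm_pow, hg p this, one_pow]

lemma mk_approx (g : ℕ → ℂ) (hg : ∀ p, p.Prime → ‖g p‖ = 1) (t : ℝ) (T : Finset ℕ) (n : ℕ)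
    (hn : n ≠ 0) (hT : ∀ p, p.Prime → p ∣ n → p ∈ T) :
    ‖mk g n - (n : ℂ) ^ ((t : ℂ) * I)‖
      ≤ ∑ p ∈ T, (n.factorization p : ℝ) * ‖g p - (p : ℂ) ^ ((t : ℂ) * I)‖ := by
  induction n using Nat.recOnMul with
  | zero => exact absurd rfl hn
  | one => simp [mk_one]
  | prime p hp =>
    rw [mk_prime g hp]
    have h1 : ((p.factorization p : ℕ) : ℝ) * ‖g p - (p : ℂ) ^ ((t : ℂ) * I)‖
        ≤ ∑ q ∈ T, (p.factorization q : ℝ) * ‖g q - (q : ℂ) ^ ((t : ℂ) * I)‖ :=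
      Finset.single_le_sum (f := fun q => (p.factorization q : ℝ) * ‖g q - (q : ℂ) ^ ((t : ℂ) * I)‖)
        (fun q _ => by positivity) (hT p hp dvd_rfl)
    rw [hp.factorization_self] at h1
    simpa using h1
  | mul a b iha ihb =>
    have ha : a ≠ 0 := by rintro rfl; simp at hn
    have hb : b ≠ 0 := by rintro rfl; simp at hn
    have h1 := iha ha (fun p hp h => hT p hp (h.mul_right b))
    have h2 := ihb hb (fun p hp h => hT p hp (h.mul_left a))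
    rw [mk_mul g ha hb, Nat.factorization_mul ha hb]
    have e : ((a * b : ℕ) : ℂ) ^ ((t : ℂ) * I) = (a : ℂ) ^ ((t : ℂ) * I) * (b : ℂ) ^ ((t : ℂ) * I) := by
      push_cast
      exact Complex.natCast_mul_natCast_cpow a b _
    rw [e]
    have e2 : mk g a * mk g b - (a : ℂ) ^ ((t : ℂ) * I) * (b : ℂ) ^ ((t : ℂ) * I)
        = (mk g a - (a : ℂ) ^ ((t : ℂ) * I)) * mk g b
          + (a : ℂ) ^ ((t : ℂ) * I) * (mk g b - (b : ℂ) ^ ((t : ℂ) * I)) := by ring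
    rw [e2]
    refine (norm_add_le _ _).trans ?_
    rw [norm_mul, norm_mul, norm_mk g hg, norm_cpow_I a (Nat.pos_of_ne_zero ha), mul_one, one_mul]
    have e3 : ∑ p ∈ T, (((a.factorization + b.factorization) p : ℕ) : ℝ) * ‖g p - (p : ℂ) ^ ((t : ℂ) * I)‖
        = ∑ p ∈ T, (a.factorization p : ℝ) * ‖g p - (p : ℂ) ^ ((t : ℂ) * I)‖
          + ∑ p ∈ T, (b.factorization p : ℝ) * ‖g p - (p : ℂ) ^ ((t : ℂ) * I)‖ := by
      rw [← Finset.sum_add_distrib]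
      apply Finset.sum_congr rfl
      intro p _
      rw [Finsupp.add_apply]
      push_cast
      ring
    rw [e3]
    linarith

lemma sum_mk_approx (g : ℕ → ℂ) (hg : ∀ p, p.Prime → ‖g p‖ = 1) (t : ℝ) (Z : ℕ) :
    ∑ n ∈ Finset.Icc 1 Z, ‖mk g n - (n : ℂ) ^ ((t : ℂ) * I)‖
      ≤ Z * ∑ p ∈ (Z + 1).primesBelow, ‖g p - (p : ℂ) ^ ((t : ℂ) * I)‖ := by
  have h1 : ∑ n ∈ Finset.Icc 1 Z, ‖mk g n - (n : ℂ) ^ ((t : ℂ) * I)‖
      ≤ ∑ n ∈ Finset.Icc 1 Z, ∑ p ∈ (Z + 1).primesBelow,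
        (n.factorization p : ℝ) * ‖g p - (p : ℂ) ^ ((t : ℂ) * I)‖ := by
    apply Finset.sum_le_sum
    intro n hn
    rw [Finset.mem_Icc] at hn
    apply mk_approx g hg t _ n (by omega)
    intro p hp hpn
    rw [Nat.mem_primesBelow]
    have := Nat.le_of_dvd (by omega) hpn
    exact ⟨by omega, hp⟩
  refine h1.trans ?_
  rw [Finset.sum_comm, Finset.mul_sum]
  apply Finset.sum_le_sum
  intro p hp
  rw [← Finset.sum_mul]
  apply mul_le_mul_of_nonneg_right _ (norm_nonneg _)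
  have hp' := Nat.prime_of_mem_primesBelow hp
  have h2 : ∑ n ∈ Finset.Icc 1 Z, n.factorization p = (Z.factorial).factorization p := by
    have h6 : Finset.Icc 1 Z = Finset.Ico 1 (Z + 1) := by ext; simp
    rw [← Finset.prod_Ico_id_eq_factorial, h6, Nat.factorization_prod (by
      intro n hn
      rw [Finset.mem_Ico] at hn
      show n ≠ 0
      omega)]
    rw [Finset.sum_apply']
  have h3 := Nat.factorization_factorial_le_div_pred hp' Z
  have h4 : Z / (p - 1) ≤ Z := Nat.div_le_self _ _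
  have h5 : ∑ n ∈ Finset.Icc 1 Z, n.factorization p ≤ Z := by rw [h2]; omega
  exact_mod_cast h5

end Pool.Agent.H1.Ell
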