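import Mathlib
import Pool.Agent.H1.EllFun
import Pool.Agent.H1.EllDefs

set_option autoImplicit false

namespace Pool.Agent.H1.Ell

open Filter Topology Complex

/-- data of one step of the construction -/
structure Step (Φ : ℕ → ℕ) (j x : ℕ) (t : ℝ) (y x' : ℕ) (t' : ℝ) : Prop where
  jy : j ≤ y
  two : 2 ≤ y
  slow : ∀ z : ℕ, y ≤ z → t * Real.log (z + 2) ≤ z / 4
  big : Φ y + 3 ≤ x'
  lt : x < x'
  block : ∀ q ∈ Finset.range (j + 1), ∀ _ : NeZero q, ∀ χ : DirichletCharacter ℂ q,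
    ∀ u ∈ Set.Icc (1 : ℝ) (2 * t), S χ u x + 1 ≤ S χ u x'
  tt : t + 1 ≤ t'
  near : ∀ n : ℕ, 1 ≤ n → n < x' → ‖(n : ℂ) ^ (((t' - t : ℝ) : ℂ) * I) - 1‖ ≤ 1 / 16 / 2 ^ (j + 1) / x'

lemma S_le {q : ℕ} (χ : DirichletCharacter ℂ q) (u : ℝ) (X : ℕ) : S χ u X ≤ 2 * X := by
  unfold S
  have h1 : ∀ p ∈ X.primesBelow, (1 - (χ p * (p : ℂ) ^ (-(u : ℂ) * I)).re) / p ≤ 2 := by
    intro p hp
    have hp' := Nat.prime_of_mem_primesBelow hp
    have h2 := norm_char_cpow_le χ u p hp'.pos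
    have h3 := (abs_le.mp (Complex.abs_re_le_norm (χ p * (p : ℂ) ^ (-(u : ℂ) * I)))).1
    have hp1 : (1 : ℝ) ≤ p := by exact_mod_cast hp'.one_lt.le
    rw [div_le_iff₀ (by linarith)]
    linarith
  refine (Finset.sum_le_card_nsmul _ _ _ h1).trans ?_
  rw [nsmul_eq_mul, mul_comm]
  have h4 : (X.primesBelow.card : ℝ) ≤ X := by
    have : X.primesBelow.card ≤ X := by
      unfold Nat.primesBelow
      refine (Finset.card_filter_le _ _).trans ?_
      simp
    exact_mod_cast this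
  linarith

lemma exists_step (Φ : ℕ → ℕ) (j x : ℕ) (t : ℝ) :
    ∃ (y x' : ℕ) (t' : ℝ), Step Φ j x t y x' t' := by
  -- choice of y
  have hlog : Tendsto (fun z : ℕ => t * Real.log ((z : ℝ) + 2) / z) atTop (𝓝 0) := by
    have h1 : Tendsto (fun z : ℝ => Real.log z / z) atTop (𝓝 0) := by
      have := Real.isLittleO_log_id_atTop.tendsto_div_nhds_zero
      exact this
    have h2 : Tendsto (fun z : ℕ => (z : ℝ) + 2) atTop atTop :=
      tendsto_atTop_add_const_right _ _ tendsto_natCast_atTop_atTop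
    have h3 := h1.comp h2
    have h4 : Tendsto (fun z : ℕ => ((z : ℝ) + 2) / z) atTop (𝓝 1) := by
      have h5 : Tendsto (fun z : ℕ => 1 + 2 / (z : ℝ)) atTop (𝓝 (1 + 0)) :=
        tendsto_const_nhds.add (tendsto_const_nhds.div_atTop tendsto_natCast_atTop_atTop)
      rw [add_zero] at h5
      refine h5.congr' ?_
      filter_upwards [eventually_gt_atTop 0] with z hz
      have : (z : ℝ) ≠ 0 := by exact_mod_cast hz.ne'
      field_simp
    have h5 := (h3.mul h4).const_mul t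
    simp only [zero_mul, mul_zero] at h5
    refine h5.congr' ?_
    filter_upwards [eventually_gt_atTop 0] with z hz
    have h6 : (z : ℝ) ≠ 0 := by exact_mod_cast hz.ne'
    have h7 : (z : ℝ) + 2 ≠ 0 := by positivity
    simp only [Function.comp]
    field_simp
  have hslow : ∀ᶠ y : ℕ in atTop, ∀ z : ℕ, y ≤ z → t * Real.log (z + 2) ≤ z / 4 := by
    have h1 := hlog.eventually (gt_mem_nhds (show (0 : ℝ) < 1 / 4 by norm_num))
    obtain ⟨N, hN⟩ := h1.exists_forall_of_atTop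
    filter_upwards [eventually_ge_atTop (max N 1)] with y hy z hz
    have hzN : N ≤ z := (le_max_left _ _).trans (hy.trans hz)
    have hz1 : 1 ≤ z := (le_max_right _ _).trans (hy.trans hz)
    have hzR : (0 : ℝ) < z := by exact_mod_cast hz1
    have h2 := hN z hzN
    rw [div_lt_iff₀ hzR] at h2
    linarith
  obtain ⟨y, ⟨hy1, hy2⟩, hy3⟩ :=
    ((hslow.and (eventually_ge_atTop j)).and (eventually_ge_atTop 2)).exists
  -- choice of x'
  have hblock : ∀ᶠ X : ℕ in atTop, ∀ q ∈ Finset.range (j + 1), ∀ _ : NeZero q,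
      ∀ χ : DirichletCharacter ℂ q, ∀ u ∈ Set.Icc (1 : ℝ) (2 * t), (2 * x + 1 : ℝ) ≤ S χ u X := by
    rw [Filter.eventually_all_finset]
    intro q _
    by_cases hq : q = 0
    · refine Filter.Eventually.of_forall (fun X hne => absurd hq hne.out)
    · have : NeZero q := ⟨hq⟩
      have h1 : ∀ᶠ X : ℕ in atTop, ∀ χ : DirichletCharacter ℂ q,
          ∀ u ∈ Set.Icc (1 : ℝ) (2 * t), (2 * x + 1 : ℝ) ≤ S χ u X := by
        rw [Filter.eventually_all]
        intro χ
        exact S_uniform χ _ _ _ one_pos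
      filter_upwards [h1] with X hX _
      exact hX
  obtain ⟨x', hx1, hx2⟩ := (hblock.and (eventually_ge_atTop (Φ y + x + 3))).exists
  have hx'0 : 0 < x' := by omega
  have hx'R : (0 : ℝ) < x' := by exact_mod_cast hx'0
  obtain ⟨s, hs1, hs2⟩ := recur x' (1 / 16 / 2 ^ (j + 1) / x') (by positivity)
  refine ⟨y, x', t + s, hy2, hy3, hy1, by omega, by omega, ?_, by linarith, ?_⟩
  · intro q hq hne χ u hu
    have h1 := hx1 q hq hne χ u hu
    have h2 := S_le χ u x
    linarith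
  · intro n hn hnx
    have := hs2 n hn hnx
    have e : t + s - t = s := by ring
    rw [e]
    exact this

lemma exists_seq (Φ : ℕ → ℕ) : ∃ (xs ys : ℕ → ℕ) (ts : ℕ → ℝ), xs 0 = 0 ∧ ts 0 = 0 ∧
    ∀ j, Step Φ j (xs j) (ts j) (ys j) (xs (j + 1)) (ts (j + 1)) := by
  choose Y X' T' h using (fun (j : ℕ) (p : ℕ × ℝ) => exists_step Φ j p.1 p.2)
  let st : ℕ → ℕ × ℝ := fun n => Nat.rec (0, 0) (fun j p => (X' j p, T' j p)) n
  exact ⟨fun j => (st j).1, fun j => Y j (st j), fun j => (st j).2, rfl, rfl, fun j => h j (st j)⟩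

end Pool.Agent.H1.Ell
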