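import Mathlib
import Pool.Agent.H1.EllMain

set_option autoImplicit false

namespace Pool.Agent.H1.Ell

open Filter Topology Complex

section
variable {Φ : ℕ → ℕ} {xs ys : ℕ → ℕ} {ts : ℕ → ℝ}

lemma xs_strict (h : ∀ j, Step Φ j (xs j) (ts j) (ys j) (xs (j + 1)) (ts (j + 1))) :
    StrictMono xs := strictMono_nat_of_lt_succ (fun j => (h j).lt)

lemma exists_idx (h : ∀ j, Step Φ j (xs j) (ts j) (ys j) (xs (j + 1)) (ts (j + 1))) (n : ℕ) :
    ∃ j, n < xs (j + 1) := ⟨n, lt_of_lt_of_le (Nat.lt_succ_self n) ((xs_strict h).le_apply)⟩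

open Classical in
/-- the index of the block containing `n` -/
noncomputable def idx (xs : ℕ → ℕ) (n : ℕ) : ℕ :=
  if h : ∃ j, n < xs (j + 1) then Nat.find h else 0

lemma idx_eq (h : ∀ j, Step Φ j (xs j) (ts j) (ys j) (xs (j + 1)) (ts (j + 1))) {j n : ℕ}
    (h1 : xs j ≤ n) (h2 : n < xs (j + 1)) : idx xs n = j := by
  classical
  unfold idx
  rw [dif_pos (exists_idx h n), Nat.find_eq_iff]
  refine ⟨h2, fun m hm => ?_⟩
  have : xs (m + 1) ≤ xs j := (xs_strict h).monotone hm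
  omega

/-- the values at the primes -/
noncomputable def gg (xs : ℕ → ℕ) (ts : ℕ → ℝ) (p : ℕ) : ℂ := (p : ℂ) ^ ((ts (idx xs p) : ℂ) * I)

lemma norm_gg (p : ℕ) (hp : p.Prime) : ‖gg xs ts p‖ = 1 := norm_cpow_I p hp.pos _

lemma gg_eq (h : ∀ j, Step Φ j (xs j) (ts j) (ys j) (xs (j + 1)) (ts (j + 1))) {j n : ℕ}
    (h1 : xs j ≤ n) (h2 : n < xs (j + 1)) : gg xs ts n = (n : ℂ) ^ ((ts j : ℂ) * I) := by
  unfold gg; rw [idx_eq h h1 h2]

lemma sum_next (h : ∀ j, Step Φ j (xs j) (ts j) (ys j) (xs (j + 1)) (ts (j + 1))) (j : ℕ) :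
    ∑ p ∈ (xs (j + 1)).primesBelow, ‖gg xs ts p - (p : ℂ) ^ ((ts j : ℂ) * I)‖
      = ∑ p ∈ (xs j).primesBelow, ‖gg xs ts p - (p : ℂ) ^ ((ts j : ℂ) * I)‖ := by
  symm
  apply Finset.sum_subset
  · intro p hp
    rw [Nat.mem_primesBelow] at hp ⊢
    exact ⟨hp.1.trans (h j).lt, hp.2⟩
  · intro p hp hp'
    rw [Nat.mem_primesBelow] at hp hp'
    have h1 : xs j ≤ p := by
      by_contra hcon
      exact hp' ⟨by omega, hp.2⟩
    rw [gg_eq h h1 hp.1, sub_self, norm_zero]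

lemma delta_le (h : ∀ j, Step Φ j (xs j) (ts j) (ys j) (xs (j + 1)) (ts (j + 1)))
    (hx0 : xs 0 = 0) (j : ℕ) :
    ∑ p ∈ (xs j).primesBelow, ‖gg xs ts p - (p : ℂ) ^ ((ts j : ℂ) * I)‖
      ≤ 1 / 16 * (1 - 1 / 2 ^ j) := by
  induction j with
  | zero => rw [hx0]; simp
  | succ j ih =>
    have hpos : (0 : ℝ) < xs (j + 1) := by
      have : 0 < xs (j + 1) := lt_of_le_of_lt (Nat.zero_le _) (h j).lt
      exact_mod_cast this
    have h1 : ∑ p ∈ (xs (j + 1)).primesBelow, ‖gg xs ts p - (p : ℂ) ^ ((ts (j + 1) : ℂ) * I)‖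
        ≤ ∑ p ∈ (xs (j + 1)).primesBelow, (‖gg xs ts p - (p : ℂ) ^ ((ts j : ℂ) * I)‖
          + 1 / 16 / 2 ^ (j + 1) / xs (j + 1)) := by
      apply Finset.sum_le_sum
      intro p hp
      rw [Nat.mem_primesBelow] at hp
      have hpC : (p : ℂ) ≠ 0 := by exact_mod_cast hp.2.ne_zero
      have h2 := (h j).near p hp.2.one_lt.le hp.1
      have e : gg xs ts p - (p : ℂ) ^ ((ts (j + 1) : ℂ) * I)
          = (gg xs ts p - (p : ℂ) ^ ((ts j : ℂ) * I))
            - (p : ℂ) ^ ((ts j : ℂ) * I) * ((p : ℂ) ^ (((ts (j + 1) - ts j : ℝ) : ℂ) * I) - 1) := by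
        have e1 : (p : ℂ) ^ ((ts (j + 1) : ℂ) * I)
            = (p : ℂ) ^ ((ts j : ℂ) * I) * (p : ℂ) ^ (((ts (j + 1) - ts j : ℝ) : ℂ) * I) := by
          rw [← Complex.cpow_add _ _ hpC]
          congr 1
          push_cast; ring
        rw [e1]; ring
      rw [e]
      refine (norm_sub_le _ _).trans ?_
      rw [norm_mul, norm_cpow_I p hp.2.pos, one_mul]
      linarith
    refine h1.trans ?_
    rw [Finset.sum_add_distrib, sum_next h j, Finset.sum_const, nsmul_eq_mul]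
    have h3 : (((xs (j + 1)).primesBelow.card : ℕ) : ℝ) ≤ xs (j + 1) := by
      have : (xs (j + 1)).primesBelow.card ≤ xs (j + 1) := by
        unfold Nat.primesBelow
        refine (Finset.card_filter_le _ _).trans ?_
        simp
      exact_mod_cast this
    have h4 : (((xs (j + 1)).primesBelow.card : ℕ) : ℝ) * (1 / 16 / 2 ^ (j + 1) / xs (j + 1))
        ≤ 1 / 16 / 2 ^ (j + 1) := by
      calc (((xs (j + 1)).primesBelow.card : ℕ) : ℝ) * (1 / 16 / 2 ^ (j + 1) / xs (j + 1))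
          ≤ xs (j + 1) * (1 / 16 / 2 ^ (j + 1) / xs (j + 1)) :=
            mul_le_mul_of_nonneg_right h3 (by positivity)
        _ = 1 / 16 / 2 ^ (j + 1) := by field_simp
    have h5 : (1 : ℝ) / 16 * (1 - 1 / 2 ^ j) + 1 / 16 / 2 ^ (j + 1)
        = 1 / 16 * (1 - 1 / 2 ^ (j + 1)) := by
      rw [pow_succ]; field_simp; ring
    linarith

lemma delta_block (h : ∀ j, Step Φ j (xs j) (ts j) (ys j) (xs (j + 1)) (ts (j + 1)))
    (hx0 : xs 0 = 0) (j Z : ℕ) (hZ : Z ≤ xs (j + 1)) :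
    ∑ p ∈ Z.primesBelow, ‖gg xs ts p - (p : ℂ) ^ ((ts j : ℂ) * I)‖ ≤ 1 / 16 := by
  have h1 : ∑ p ∈ Z.primesBelow, ‖gg xs ts p - (p : ℂ) ^ ((ts j : ℂ) * I)‖
      ≤ ∑ p ∈ (xs (j + 1)).primesBelow, ‖gg xs ts p - (p : ℂ) ^ ((ts j : ℂ) * I)‖ := by
    apply Finset.sum_le_sum_of_subset_of_nonneg
    · intro p hp
      rw [Nat.mem_primesBelow] at hp ⊢
      exact ⟨hp.1.trans_le hZ, hp.2⟩
    · intro p _ _; positivity
  rw [sum_next h j] at h1
  have h2 := delta_le h hx0 j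
  have h3 : (0 : ℝ) < 1 / 2 ^ j := by positivity
  linarith

lemma norm_h_sub (t : ℝ) (ht : 0 ≤ t) (n : ℕ) :
    ‖((n + 1 : ℕ) : ℂ) ^ ((t : ℂ) * I) * (starRingEnd ℂ) (((n + 2 : ℕ) : ℂ) ^ ((t : ℂ) * I)) - 1‖
      ≤ t * (Real.log ((n : ℝ) + 2) - Real.log ((n : ℝ) + 1)) := by
  have e : ∀ m : ℕ, 0 < m → ((m : ℕ) : ℂ) ^ ((t : ℂ) * I) = Complex.exp (((t * Real.log m : ℝ) : ℂ) * I) := by
    intro m hm
    have hmC : (m : ℂ) ≠ 0 := by exact_mod_cast hm.ne'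
    rw [Complex.cpow_def_of_ne_zero hmC]
    congr 1
    rw [Complex.ofReal_mul, Complex.natCast_log]
    ring
  rw [e (n + 1) (by omega), e (n + 2) (by omega), ← Complex.exp_conj, map_mul, Complex.conj_I,
    Complex.conj_ofReal, ← Complex.exp_add]
  have e2 : ((t * Real.log ((n + 1 : ℕ) : ℝ) : ℝ) : ℂ) * I + ((t * Real.log ((n + 2 : ℕ) : ℝ) : ℝ) : ℂ) * -I
      = I * ((t * (Real.log ((n : ℝ) + 1) - Real.log ((n : ℝ) + 2)) : ℝ) : ℂ) := by
    push_cast; ring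
  rw [e2]
  refine (Real.norm_exp_I_mul_ofReal_sub_one_le).trans ?_
  rw [Real.norm_eq_abs, abs_mul, abs_of_nonneg ht, abs_sub_comm]
  apply mul_le_mul_of_nonneg_left _ ht
  rw [abs_of_nonneg]
  have : Real.log ((n : ℝ) + 1) ≤ Real.log ((n : ℝ) + 2) :=
    Real.log_le_log (by positivity) (by linarith)
  linarith

lemma ts_nonneg (h : ∀ j, Step Φ j (xs j) (ts j) (ys j) (xs (j + 1)) (ts (j + 1)))
    (ht0 : ts 0 = 0) (j : ℕ) : (j : ℝ) ≤ ts j := by
  induction j with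
  | zero => rw [ht0]; simp
  | succ j ih => have := (h j).tt; push_cast; linarith

lemma corr_large (h : ∀ j, Step Φ j (xs j) (ts j) (ys j) (xs (j + 1)) (ts (j + 1)))
    (hx0 : xs 0 = 0) (ht0 : ts 0 = 0) (j z : ℕ) (hz : ys j ≤ z) (hz2 : z ≤ Φ (ys j)) :
    1 / 2 ≤ ((∑ n ∈ Finset.Icc 1 z, mk (gg xs ts) (n + 1) *
      (starRingEnd ℂ) (mk (gg xs ts) (n + 2))) / (z : ℂ)).re := by
  set f := mk (gg xs ts) with hf
  set t := ts j with ht
  have ht1 : 0 ≤ t := (Nat.cast_nonneg j).trans (ts_nonneg h ht0 j)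
  have hg : ∀ p : ℕ, p.Prime → ‖gg xs ts p‖ = 1 := fun p hp => norm_gg p hp
  have hz3 : z + 3 ≤ xs (j + 1) := by have := (h j).big; omega
  have hz4 : 2 ≤ z := (h j).two.trans hz
  have hzR : (2 : ℝ) ≤ z := by exact_mod_cast hz4
  have hsum := sum_mk_approx (gg xs ts) hg t (z + 2)
  have hdel := delta_block h hx0 j (z + 2 + 1) hz3
  rw [← hf] at hsum
  have hA : ∑ n ∈ Finset.Icc 1 (z + 2), ‖f n - (n : ℂ) ^ ((t : ℂ) * I)‖ ≤ ((z : ℝ) + 2) / 16 := by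
    refine hsum.trans ?_
    have : (((z + 2 : ℕ) : ℝ)) * ∑ p ∈ (z + 2 + 1).primesBelow, ‖gg xs ts p - (p : ℂ) ^ ((t : ℂ) * I)‖
        ≤ ((z + 2 : ℕ) : ℝ) * (1 / 16) := mul_le_mul_of_nonneg_left hdel (by positivity)
    push_cast at this
    push_cast
    linarith
  have hA1 : ∑ n ∈ Finset.Icc 1 z, ‖f (n + 1) - ((n + 1 : ℕ) : ℂ) ^ ((t : ℂ) * I)‖ ≤ ((z : ℝ) + 2) / 16 := by
    refine le_trans ?_ hA
    have e : ∑ n ∈ Finset.Icc 1 z, ‖f (n + 1) - ((n + 1 : ℕ) : ℂ) ^ ((t : ℂ) * I)‖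
        = ∑ n ∈ (Finset.Icc 1 z).map (addRightEmbedding 1), ‖f n - (n : ℂ) ^ ((t : ℂ) * I)‖ := by
      rw [Finset.sum_map]; rfl
    rw [e]
    apply Finset.sum_le_sum_of_subset_of_nonneg
    · intro n hn
      rw [Finset.mem_map] at hn
      obtain ⟨m, hm, rfl⟩ := hn
      rw [Finset.mem_Icc] at hm ⊢
      simp only [addRightEmbedding_apply]
      omega
    · intro n _ _; positivity
  have hA2 : ∑ n ∈ Finset.Icc 1 z, ‖f (n + 2) - ((n + 2 : ℕ) : ℂ) ^ ((t : ℂ) * I)‖ ≤ ((z : ℝ) + 2) / 16 := by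
    refine le_trans ?_ hA
    have e : ∑ n ∈ Finset.Icc 1 z, ‖f (n + 2) - ((n + 2 : ℕ) : ℂ) ^ ((t : ℂ) * I)‖
        = ∑ n ∈ (Finset.Icc 1 z).map (addRightEmbedding 2), ‖f n - (n : ℂ) ^ ((t : ℂ) * I)‖ := by
      rw [Finset.sum_map]; rfl
    rw [e]
    apply Finset.sum_le_sum_of_subset_of_nonneg
    · intro n hn
      rw [Finset.mem_map] at hn
      obtain ⟨m, hm, rfl⟩ := hn
      rw [Finset.mem_Icc] at hm ⊢
      simp only [addRightEmbedding_apply]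
      omega
    · intro n _ _; positivity
  have hA3 : ∑ n ∈ Finset.Icc 1 z, t * (Real.log ((n : ℝ) + 2) - Real.log ((n : ℝ) + 1)) ≤ z / 4 := by
    rw [← Finset.mul_sum]
    have htel : ∀ Z : ℕ, ∑ n ∈ Finset.Icc 1 Z, (Real.log ((n : ℝ) + 2) - Real.log ((n : ℝ) + 1))
        = Real.log ((Z : ℝ) + 2) - Real.log 2 := by
      intro Z
      induction Z with
      | zero => simp
      | succ Z ih =>
        rw [Finset.sum_Icc_succ_top (by omega), ih]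
        push_cast
        have : (Z : ℝ) + 1 + 1 = Z + 2 := by ring
        rw [this]; ring
    rw [htel]
    have h1 := (h j).slow z hz
    have h2 : 0 ≤ Real.log 2 := Real.log_nonneg (by norm_num)
    have h3 : t * (Real.log ((z : ℝ) + 2) - Real.log 2) ≤ t * Real.log (z + 2) :=
      mul_le_mul_of_nonneg_left (by linarith) ht1
    linarith
  have hbound : ‖∑ n ∈ Finset.Icc 1 z, (f (n + 1) * (starRingEnd ℂ) (f (n + 2)) - 1)‖ ≤ z / 2 := by
    refine (norm_sum_le _ _).trans ?_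
    have h1 : ∀ n ∈ Finset.Icc 1 z, ‖f (n + 1) * (starRingEnd ℂ) (f (n + 2)) - 1‖
        ≤ ‖f (n + 1) - ((n + 1 : ℕ) : ℂ) ^ ((t : ℂ) * I)‖
          + ‖f (n + 2) - ((n + 2 : ℕ) : ℂ) ^ ((t : ℂ) * I)‖
          + t * (Real.log ((n : ℝ) + 2) - Real.log ((n : ℝ) + 1)) := by
      intro n _
      have hn2 := norm_h_sub t ht1 n
      set a := ((n + 1 : ℕ) : ℂ) ^ ((t : ℂ) * I) with ha
      set b := ((n + 2 : ℕ) : ℂ) ^ ((t : ℂ) * I) with hb
      have ha1 : ‖a‖ = 1 := norm_cpow_I (n + 1) (by omega) t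
      have hfn : ‖f (n + 2)‖ = 1 := norm_mk _ hg _
      have e : f (n + 1) * (starRingEnd ℂ) (f (n + 2)) - 1
          = (f (n + 1) - a) * (starRingEnd ℂ) (f (n + 2))
            + a * (starRingEnd ℂ) (f (n + 2) - b) + (a * (starRingEnd ℂ) b - 1) := by
        rw [map_sub]; ring
      rw [e]
      refine (norm_add_le _ _).trans (add_le_add ((norm_add_le _ _).trans ?_) hn2)
      rw [norm_mul, norm_mul, Complex.norm_conj, Complex.norm_conj, hfn, ha1, mul_one, one_mul]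
    refine (Finset.sum_le_sum h1).trans ?_
    rw [Finset.sum_add_distrib, Finset.sum_add_distrib]
    linarith
  rw [Finset.sum_sub_distrib, Finset.sum_const, Nat.card_Icc] at hbound
  simp only [add_tsub_cancel_right, nsmul_eq_mul, mul_one] at hbound
  set W := ∑ n ∈ Finset.Icc 1 z, f (n + 1) * (starRingEnd ℂ) (f (n + 2)) with hWW
  have h1 : -(z / 2 : ℝ) ≤ (W - z).re := by
    have := (abs_le.mp ((Complex.abs_re_le_norm (W - z)).trans hbound)).1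
    exact this
  rw [Complex.sub_re, Complex.natCast_re] at h1
  have e : (W / (z : ℂ)).re = W.re / z := by
    rw [← Complex.ofReal_natCast, Complex.div_ofReal_re]
  rw [e, le_div_iff₀ (by linarith)]
  linarith

end

end Pool.Agent.H1.Ell
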