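import Mathlib
import Pool.Agent.H1.EllFinal

set_option autoImplicit false

namespace Pool.Agent.H1.Ell

open Filter Topology Complex

section
variable {Φ : ℕ → ℕ} {xs ys : ℕ → ℕ} {ts : ℕ → ℝ}

lemma dist_term_nonneg (f g : ℕ → ℂ) (p : ℕ) (hf : ‖f p‖ ≤ 1) (hg : ‖g p‖ ≤ 1) :
    0 ≤ (1 - (f p * (starRingEnd ℂ) (g p)).re) / p := by
  apply div_nonneg _ (Nat.cast_nonneg _)
  have h1 := Complex.re_le_norm (f p * (starRingEnd ℂ) (g p))
  rw [norm_mul, Complex.norm_conj] at h1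
  have h2 : ‖f p‖ * ‖g p‖ ≤ 1 * 1 := mul_le_mul hf hg (norm_nonneg _) (by norm_num)
  linarith

lemma nonpret (h : ∀ j, Step Φ j (xs j) (ts j) (ys j) (xs (j + 1)) (ts (j + 1)))
    (ht0 : ts 0 = 0) : NonPretentious (mk (gg xs ts)) := by
  intro q hq χ t
  set f := mk (gg xs ts) with hf
  set g : ℕ → ℂ := fun n => χ n * (n : ℂ) ^ ((t : ℂ) * I) with hgdef
  have hg : ∀ p : ℕ, p.Prime → ‖gg xs ts p‖ = 1 := fun p hp => norm_gg p hp
  have hfn : ∀ p, ‖f p‖ ≤ 1 := fun p => (norm_mk _ hg p).le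
  have hgn : ∀ p : ℕ, p.Prime → ‖g p‖ ≤ 1 := by
    intro p hp
    rw [hgdef]
    simp only
    rw [norm_mul, norm_cpow_I p hp.pos, mul_one]
    exact χ.norm_le_one _
  -- partial sums
  let P : ℕ → ℝ := fun X => ∑ p ∈ X.primesBelow, (1 - (f p * (starRingEnd ℂ) (g p)).re) / p
  have hPmono : Monotone P := by
    intro X Y hXY
    apply Finset.sum_le_sum_of_subset_of_nonneg
    · intro p hp
      rw [Nat.mem_primesBelow] at hp ⊢
      exact ⟨hp.1.trans_le hXY, hp.2⟩
    · intro p hp _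
      exact dist_term_nonneg f g p (hfn p) (hgn p (Nat.prime_of_mem_primesBelow hp))
  obtain ⟨J, hJ⟩ : ∃ J : ℕ, |t| + 1 + q ≤ J := exists_nat_ge _
  have hstep : ∀ j, J ≤ j → P (xs j) + 1 ≤ P (xs (j + 1)) := by
    intro j hj
    have hjR : (J : ℝ) ≤ j := by exact_mod_cast hj
    have htj := ts_nonneg h ht0 j
    have hqR : (0 : ℝ) ≤ q := Nat.cast_nonneg q
    have habs := abs_nonneg t
    have hqj : q ∈ Finset.range (j + 1) := by
      rw [Finset.mem_range]
      have : (q : ℝ) ≤ j := by linarith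
      have : q ≤ j := by exact_mod_cast this
      omega
    have hu1 : ts j - t ∈ Set.Icc (1 : ℝ) (2 * ts j) := by
      constructor
      · have := le_abs_self t; linarith
      · have := neg_abs_le t; linarith
    have hb := (h j).block q hqj hq χ (ts j - t) hu1
    have hlt : xs j ≤ xs (j + 1) := (h j).lt.le
    -- difference of the partial sums
    have hsub : (xs j).primesBelow ⊆ (xs (j + 1)).primesBelow := by
      intro p hp
      rw [Nat.mem_primesBelow] at hp ⊢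
      exact ⟨hp.1.trans_le hlt, hp.2⟩
    have e1 : P (xs (j + 1)) - P (xs j)
        = ∑ p ∈ (xs (j + 1)).primesBelow \ (xs j).primesBelow,
          (1 - (f p * (starRingEnd ℂ) (g p)).re) / p := by
      have := Finset.sum_sdiff (f := fun p : ℕ => (1 - (f p * (starRingEnd ℂ) (g p)).re) / p) hsub
      simp only [P]
      linarith
    have e2 : S χ (ts j - t) (xs (j + 1)) - S χ (ts j - t) (xs j)
        = ∑ p ∈ (xs (j + 1)).primesBelow \ (xs j).primesBelow,
          (1 - (χ p * (p : ℂ) ^ (-((ts j - t : ℝ) : ℂ) * I)).re) / p := by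
      have := Finset.sum_sdiff (f := fun p : ℕ =>
        (1 - (χ p * (p : ℂ) ^ (-((ts j - t : ℝ) : ℂ) * I)).re) / p) hsub
      unfold S
      linarith
    have e3 : ∑ p ∈ (xs (j + 1)).primesBelow \ (xs j).primesBelow,
          (1 - (f p * (starRingEnd ℂ) (g p)).re) / p
        = ∑ p ∈ (xs (j + 1)).primesBelow \ (xs j).primesBelow,
          (1 - (χ p * (p : ℂ) ^ (-((ts j - t : ℝ) : ℂ) * I)).re) / p := by
      apply Finset.sum_congr rfl
      intro p hp
      rw [Finset.mem_sdiff, Nat.mem_primesBelow, Nat.mem_primesBelow] at hp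
      obtain ⟨⟨hp1, hp2⟩, hp3⟩ := hp
      have hxp : xs j ≤ p := by
        by_contra hcon
        exact hp3 ⟨by omega, hp2⟩
      have hpC : (p : ℂ) ≠ 0 := by exact_mod_cast hp2.ne_zero
      have hval : f p = (p : ℂ) ^ ((ts j : ℂ) * I) := by
        rw [hf, mk_prime _ hp2, gg_eq h hxp hp1]
      have hconj : ∀ τ : ℝ, (starRingEnd ℂ) ((p : ℂ) ^ ((τ : ℂ) * I)) = (p : ℂ) ^ (-(τ : ℂ) * I) := by
        intro τ
        rw [Complex.cpow_def_of_ne_zero hpC, Complex.cpow_def_of_ne_zero hpC, ← Complex.exp_conj,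
          map_mul, map_mul, Complex.conj_I, Complex.conj_ofReal, ← Complex.natCast_log,
          Complex.conj_ofReal]
        congr 1
        ring
      have e4 : f p * (starRingEnd ℂ) (g p)
          = (starRingEnd ℂ) (χ p * (p : ℂ) ^ (-((ts j - t : ℝ) : ℂ) * I)) := by
        have e5 : (p : ℂ) ^ (-((ts j - t : ℝ) : ℂ) * I)
            = (p : ℂ) ^ ((t : ℂ) * I) * (p : ℂ) ^ (-(ts j : ℂ) * I) := by
          rw [← Complex.cpow_add _ _ hpC]
          congr 1
          push_cast; ring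
        have hgp : g p = χ p * (p : ℂ) ^ ((t : ℂ) * I) := rfl
        rw [hgp, e5, ← hconj (ts j), hval]
        simp only [map_mul, Complex.conj_conj]
        ring
      rw [e4, Complex.conj_re]
    rw [e3, ← e2] at e1
    linarith
  have hgrow : ∀ m : ℕ, P (xs J) + m ≤ P (xs (J + m)) := by
    intro m
    induction m with
    | zero => simp
    | succ m ih =>
      have := hstep (J + m) (by omega)
      push_cast
      have e : J + (m + 1) = J + m + 1 := by ring
      rw [e]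
      linarith
  rw [tendsto_atTop]
  intro B
  obtain ⟨m, hm⟩ := exists_nat_ge (B - P (xs J))
  filter_upwards [eventually_ge_atTop (xs (J + m))] with x hx
  have h1 : P (xs (J + m)) ≤ P (x + 1) := hPmono (by omega)
  have h2 := hgrow m
  have h3 : distSq f g x = P (x + 1) := rfl
  rw [h3]
  linarith

end

/-- Matomaki-Radziwill-Tao type functions that are correlated on arbitrarily long ranges of
scales. -/
theorem exists_fun (Φ : ℕ → ℕ) : ∃ f : ℕ → ℂ, IsMult f ∧ (∀ n, ‖f n‖ = 1) ∧ NonPretentious f ∧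
    ∃ y : ℕ → ℕ, (∀ j, j ≤ y j) ∧ ∀ j x : ℕ, y j ≤ x → x ≤ Φ (y j) →
      1 / 2 ≤ ((∑ n ∈ Finset.Icc 1 x, f (n + 1) * (starRingEnd ℂ) (f (n + 2))) / (x : ℂ)).re := by
  obtain ⟨xs, ys, ts, hx0, ht0, h⟩ := exists_seq Φ
  have hg : ∀ p : ℕ, p.Prime → ‖gg xs ts p‖ = 1 := fun p hp => norm_gg p hp
  refine ⟨mk (gg xs ts), ⟨mk_one _, ?_, ?_⟩, norm_mk _ hg, nonpret h ht0, ys, fun j => (h j).jy, ?_⟩
  · intro m n hm hn _
    exact mk_mul _ hm.ne' hn.ne'
  · intro n _
    exact (norm_mk _ hg n).le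
  · intro j x h1 h2
    exact corr_large h hx0 ht0 j x h1 h2

lemma isMult_conj {f : ℕ → ℂ} (hf : IsMult f) : IsMult (fun n => (starRingEnd ℂ) (f n)) where
  one := by simp [hf.one]
  mul m n hm hn h := by
    show (starRingEnd ℂ) (f (m * n)) = (starRingEnd ℂ) (f m) * (starRingEnd ℂ) (f n)
    rw [hf.mul m n hm hn h, map_mul]
  bound n hn := by
    show ‖(starRingEnd ℂ) (f n)‖ ≤ 1
    rw [Complex.norm_conj]; exact hf.bound n hn

/-- if the two-point correlations vanish along `X` then `X` misses the long ranges -/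
lemma vanish_imp {f : ℕ → ℂ} (hf : IsMult f) {X : Set ℕ} (hX : CorrVanish 1 f X) :
    ∃ N : ℕ, ∀ x ∈ X, N ≤ x →
      ((∑ n ∈ Finset.Icc 1 x, f (n + 1) * (starRingEnd ℂ) (f (n + 2))) / (x : ℂ)).re < 1 / 2 := by
  have h1 := hX ![f, fun n => (starRingEnd ℂ) (f n)] ![1, 2] rfl
    (by
      intro i
      fin_cases i
      · exact hf
      · exact isMult_conj hf)
    (by
      intro i j hij
      fin_cases i <;> fin_cases j <;> simp_all)
    (by
      intro i
      fin_cases i <;> simp)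
  have h2 : Tendsto (fun x : ℕ => ((∑ n ∈ Finset.Icc 1 x, f (n + 1) * (starRingEnd ℂ) (f (n + 2)))
      / (x : ℂ)).re) (atTop ⊓ 𝓟 X) (𝓝 0) := by
    have h3 := (Complex.continuous_re.tendsto 0).comp h1
    rw [Complex.zero_re] at h3
    refine h3.congr (fun x => ?_)
    have e : ∀ n : ℕ, ∏ i : Fin (1 + 1), (![f, fun n => (starRingEnd ℂ) (f n)] : Fin (1 + 1) → ℕ → ℂ) i
        (n + (![1, 2] : Fin (1 + 1) → ℕ) i) = f (n + 1) * (starRingEnd ℂ) (f (n + 2)) :=
      fun n => Fin.prod_univ_two _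
    simp only [Function.comp, e]
  have h4 := h2.eventually (gt_mem_nhds (show (0 : ℝ) < 1 / 2 by norm_num))
  rw [Filter.eventually_inf_principal] at h4
  obtain ⟨N, hN⟩ := h4.exists_forall_of_atTop
  exact ⟨N, fun x hx hxN => hN x hxN hx⟩

/-- No infinite set of scales works for all non-pretentious functions. -/
theorem no_universal (X : Set ℕ) (hX : X.Infinite) :
    ∃ f : ℕ → ℂ, IsMult f ∧ NonPretentious f ∧ ¬ CorrVanish 1 f X := by
  have hX' : ∀ n : ℕ, ∃ m, n ≤ m ∧ m ∈ X := by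
    intro n
    obtain ⟨m, hm, hnm⟩ := hX.exists_gt n
    exact ⟨m, hnm.le, hm⟩
  choose Φ hΦ1 hΦ2 using hX'
  obtain ⟨f, hf, -, hnp, y, hy, hbig⟩ := exists_fun Φ
  refine ⟨f, hf, hnp, fun hv => ?_⟩
  obtain ⟨N, hN⟩ := vanish_imp hf hv
  have h1 := hN (Φ (y N)) (hΦ2 _) ((hy N).trans (hΦ1 _))
  have h2 := hbig N (Φ (y N)) (hΦ1 _) le_rfl
  linarith

end Pool.Agent.H1.Ell
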