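import Mathlib
import Pool.Agent.H1.EllCor

set_option autoImplicit false

namespace Pool.Agent.H1.Ell

open Filter Topology Complex

lemma sum_inv_le (x : ℕ) : ∑ n ∈ Finset.Icc 1 x, 1 / (n : ℝ) ≤ 1 + Real.log x := by
  have h := harmonic_le_one_add_log x
  rw [harmonic_eq_sum_Icc] at h
  push_cast at h
  simpa [one_div] using h

lemma sum_ind_le (X : Set ℕ) (x : ℕ) :
    ∑ n ∈ Finset.Icc 1 x, X.indicator (fun n => 1 / (n : ℝ)) n ≤ ∑ n ∈ Finset.Icc 1 x, 1 / (n : ℝ) := by
  apply Finset.sum_le_sum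
  intro n _
  apply Set.indicator_le_self'
  intro _ _; positivity

lemma sum_ind_nonneg (X : Set ℕ) (x : ℕ) :
    0 ≤ ∑ n ∈ Finset.Icc 1 x, X.indicator (fun n => 1 / (n : ℝ)) n := by
  apply Finset.sum_nonneg
  intro n _
  apply Set.indicator_nonneg
  intro _ _; positivity

lemma lower_zero (X : Set ℕ) (h : ∀ ε : ℝ, 0 < ε → ∃ᶠ x : ℕ in atTop,
    (∑ n ∈ Finset.Icc 1 x, X.indicator (fun n => 1 / (n : ℝ)) n) / Real.log x ≤ ε) :
    lowerLogDensity X = 0 := by
  unfold lowerLogDensity
  set u : ℕ → ℝ := fun x => (∑ n ∈ Finset.Icc 1 x, X.indicator (fun n => 1 / (n : ℝ)) n)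
    / Real.log x with hu
  have h0 : ∀ x, 0 ≤ u x := by
    intro x
    apply div_nonneg (sum_ind_nonneg X x)
    rcases Nat.eq_zero_or_pos x with h | h
    · subst h; simp
    · exact Real.log_nonneg (by exact_mod_cast h)
  have hb1 : IsBoundedUnder (· ≥ ·) atTop u := ⟨0, by
    rw [Filter.eventually_map]
    exact Filter.Eventually.of_forall h0⟩
  have hb2 : IsBoundedUnder (· ≤ ·) atTop u := by
    refine ⟨2, ?_⟩
    rw [Filter.eventually_map]
    filter_upwards [eventually_ge_atTop 3] with x hx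
    have hlog : 1 ≤ Real.log x := by
      rw [Real.le_log_iff_exp_le (by exact_mod_cast (by omega : 0 < x))]
      have h1 := Real.exp_one_lt_d9
      have h2 : (3 : ℝ) ≤ x := by exact_mod_cast hx
      linarith
    have h3 := (sum_ind_le X x).trans (sum_inv_le x)
    rw [hu]
    simp only
    rw [div_le_iff₀ (by linarith)]
    linarith
  apply le_antisymm
  · apply le_of_forall_pos_le_add
    intro ε hε
    rw [zero_add]
    exact liminf_le_of_frequently_le (h ε hε) hb1
  · exact le_liminf_of_le hb2.isCoboundedUnder_ge (Filter.Eventually.of_forall h0)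

/-- There is a non-pretentious function for which every good set of scales has lower logarithmic
density zero. -/
theorem lower_density : ∃ f : ℕ → ℂ, IsMult f ∧ NonPretentious f ∧
    ∀ X : Set ℕ, CorrVanish 1 f X → lowerLogDensity X = 0 := by
  obtain ⟨f, hf, -, hnp, y, hy, hbig⟩ := exists_fun (fun y => 2 ^ y)
  refine ⟨f, hf, hnp, fun X hX => lower_zero X (fun ε hε => ?_)⟩
  obtain ⟨N, hN⟩ := vanish_imp hf hX
  -- the ratio tends to zero
  have hlim : Tendsto (fun y : ℕ => (1 + Real.log y) / (y * Real.log 2)) atTop (𝓝 0) := by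
    have h1 : Tendsto (fun z : ℝ => Real.log z / z) atTop (𝓝 0) :=
      Real.isLittleO_log_id_atTop.tendsto_div_nhds_zero
    have h2 := h1.comp tendsto_natCast_atTop_atTop
    have h3 : Tendsto (fun z : ℕ => 1 / (z : ℝ)) atTop (𝓝 0) :=
      tendsto_const_nhds.div_atTop tendsto_natCast_atTop_atTop
    have h4 := (h3.add h2).mul_const (1 / Real.log 2)
    simp only [add_zero, zero_mul] at h4
    refine h4.congr (fun z => ?_)
    simp only [Function.comp]
    rcases Nat.eq_zero_or_pos z with h | h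
    · subst h; simp
    · have h5 : (z : ℝ) ≠ 0 := by exact_mod_cast h.ne'
      have h6 : Real.log 2 ≠ 0 := (Real.log_pos (by norm_num)).ne'
      field_simp
  have hev := hlim.eventually (gt_mem_nhds hε)
  obtain ⟨M, hM⟩ := hev.exists_forall_of_atTop
  rw [Filter.frequently_atTop]
  intro a
  set j : ℕ := max (max a N) (max M 1) with hj
  have hja : a ≤ j := (le_max_left _ _).trans (le_max_left _ _)
  have hjN : N ≤ j := (le_max_right _ _).trans (le_max_left _ _)
  have hjM : M ≤ j := (le_max_left _ _).trans (le_max_right _ _)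
  have hj1 : 1 ≤ j := (le_max_right _ _).trans (le_max_right _ _)
  have hyj := hy j
  have hlt : y j < 2 ^ (y j) := Nat.lt_two_pow_self
  refine ⟨2 ^ (y j), by omega, ?_⟩
  have hmiss : ∀ x ∈ X, y j ≤ x → x ≤ 2 ^ (y j) → False := by
    intro x hx h1 h2
    have h3 := hN x hx (by omega)
    have h4 := hbig j x h1 h2
    linarith
  have hsum : ∑ n ∈ Finset.Icc 1 (2 ^ (y j)), X.indicator (fun n => 1 / (n : ℝ)) n
      ≤ ∑ n ∈ Finset.Icc 1 (y j), 1 / (n : ℝ) := by
    have h1 : ∑ n ∈ Finset.Icc 1 (2 ^ (y j)), X.indicator (fun n => 1 / (n : ℝ)) n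
        = ∑ n ∈ Finset.Icc 1 (y j), X.indicator (fun n => 1 / (n : ℝ)) n := by
      symm
      apply Finset.sum_subset
      · intro n hn
        rw [Finset.mem_Icc] at hn ⊢
        omega
      · intro n hn hn'
        rw [Finset.mem_Icc] at hn hn'
        apply Set.indicator_of_notMem
        intro hX
        exact hmiss n hX (by omega) hn.2
    rw [h1]
    exact sum_ind_le X (y j)
  have h5 := hsum.trans (sum_inv_le (y j))
  have h6 := (hM (y j) (by omega)).le
  have hlog2 : 0 < Real.log 2 := Real.log_pos (by norm_num)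
  have hyR : (0 : ℝ) < y j := by exact_mod_cast (by omega : 0 < y j)
  have e : Real.log ((2 ^ (y j) : ℕ) : ℝ) = y j * Real.log 2 := by
    push_cast
    rw [Real.log_pow]
  rw [e]
  refine le_trans ?_ h6
  apply div_le_div_of_nonneg_right h5
  positivity

/-- No countable family of infinite sets of scales suffices for all non-pretentious functions. -/
theorem no_countable_family (X : ℕ → Set ℕ) (hX : ∀ i, (X i).Infinite) :
    ∃ f : ℕ → ℂ, IsMult f ∧ (∀ n, ‖f n‖ = 1) ∧ NonPretentious f ∧ ∀ i, ¬ CorrVanish 1 f (X i) := by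
  have hX' : ∀ i n : ℕ, ∃ m, n ≤ m ∧ m ∈ X i := by
    intro i n
    obtain ⟨m, hm, hnm⟩ := (hX i).exists_gt n
    exact ⟨m, hnm.le, hm⟩
  choose m hm1 hm2 using hX'
  obtain ⟨f, hf, hn1, hnp, y, hy, hbig⟩ :=
    exists_fun (fun n => (Finset.range (n + 1)).sup (fun i => m i n))
  refine ⟨f, hf, hn1, hnp, fun i hv => ?_⟩
  obtain ⟨N, hN⟩ := vanish_imp hf hv
  set j : ℕ := max N i with hj
  have hjN : N ≤ j := le_max_left _ _
  have hji : i ≤ j := le_max_right _ _
  have hyj := hy j
  have h1 := hN (m i (y j)) (hm2 _ _) ((hjN.trans hyj).trans (hm1 _ _))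
  have h3 : m i (y j) ≤ (Finset.range (y j + 1)).sup (fun i => m i (y j)) :=
    Finset.le_sup (f := fun i => m i (y j)) (Finset.mem_range.2 (by omega))
  have h2 := hbig j (m i (y j)) (hm1 _ _) h3
  linarith

end Pool.Agent.H1.Ell
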